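import Mathlib

set_option autoImplicit false

/-!
Thompson's group `F` (predicate on order automorphisms of the line), binary trees and words.
-/

namespace Pool.Agent.W_MP_80b09e_al

/-- Dyadic rationals, the elements of `ℤ[1/2]`. -/
def IsDyadic (x : ℝ) : Prop := ∃ (m : ℤ) (n : ℕ), x = m / 2 ^ n

/-- `f` belongs to Thompson's group `F`. Homeomorphisms of `[0,1]` that fix `0` and `1` are
viewed as order automorphisms of the line that are the identity outside `[0,1]`. There is a finite set `B` of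
dyadic rationals in `(0,1)` such that `f` is affine, with slope an integer power of `2`, on each
subinterval of `[0,1]` without points of `B` in its interior. -/
def IsF (f : ℝ ≃o ℝ) : Prop :=
  (∀ x, x ≤ 0 → f x = x) ∧ (∀ x, 1 ≤ x → f x = x) ∧
  ∃ B : Finset ℝ, (∀ b ∈ B, IsDyadic b ∧ 0 < b ∧ b < 1) ∧
    ∀ x y : ℝ, 0 ≤ x → x < y → y ≤ 1 → (∀ b ∈ B, ¬ (x < b ∧ b < y)) →
      ∃ (k : ℤ) (c : ℝ), ∀ z ∈ Set.Icc x y, f z = 2 ^ k * z + c

end Pool.Agent.W_MP_80b09e_al
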