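import Mathlib
import Pool.Agent.W_MP_80b09e_al.Base

set_option autoImplicit false

open Set

namespace Pool.Agent.W_MP_80b09e_al

lemma IsDyadic.add {x y : ℝ} (hx : IsDyadic x) (hy : IsDyadic y) : IsDyadic (x + y) := by
  obtain ⟨m, n, rfl⟩ := hx
  obtain ⟨m', n', rfl⟩ := hy
  refine ⟨m * 2 ^ n' + m' * 2 ^ n, n + n', ?_⟩
  push_cast
  rw [pow_add]
  field_simp

lemma IsDyadic.neg {x : ℝ} (hx : IsDyadic x) : IsDyadic (-x) := by
  obtain ⟨m, n, rfl⟩ := hx
  refine ⟨-m, n, ?_⟩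
  push_cast
  ring

lemma IsDyadic.sub {x y : ℝ} (hx : IsDyadic x) (hy : IsDyadic y) : IsDyadic (x - y) := by
  rw [sub_eq_add_neg]
  exact hx.add hy.neg

lemma IsDyadic.mul {x y : ℝ} (hx : IsDyadic x) (hy : IsDyadic y) : IsDyadic (x * y) := by
  obtain ⟨m, n, rfl⟩ := hx
  obtain ⟨m', n', rfl⟩ := hy
  refine ⟨m * m', n + n', ?_⟩
  push_cast
  rw [pow_add]
  field_simp

lemma isDyadic_zero : IsDyadic 0 := ⟨0, 0, by simp⟩

lemma isDyadic_one : IsDyadic 1 := ⟨1, 0, by simp⟩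

lemma isDyadic_zpow (k : ℤ) : IsDyadic ((2 : ℝ) ^ k) := by
  obtain ⟨n, rfl | rfl⟩ := k.eq_nat_or_neg
  · exact ⟨2 ^ n, 0, by simp⟩
  · exact ⟨1, n, by simp⟩

/-- Elements of `F` preserve the dyadic rationals. -/
lemma IsF.dyadic {f : ℝ ≃o ℝ} (hf : IsF f) {z : ℝ} (hz : IsDyadic z) : IsDyadic (f z) := by
  classical
  obtain ⟨h0, h1, B, hB, hpl⟩ := hf
  rcases le_or_gt z 0 with hz0 | hz0
  · rw [h0 z hz0]; exact hz
  rcases le_or_gt 1 z with hz1 | hz1
  · rw [h1 z hz1]; exact hz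
  have key : ∀ n : ℕ, ∀ z : ℝ, 0 < z → z < 1 → IsDyadic z →
      (B.filter fun b => b < z).card = n → IsDyadic (f z) := by
    intro n
    induction n using Nat.strong_induction_on with
    | _ n ih =>
      intro z hz0 hz1 hz hn
      by_cases hne : (B.filter fun b => b < z).Nonempty
      · obtain ⟨b, hb, hmax⟩ := (B.filter fun b => b < z).exists_max_image id hne
        have hb' := Finset.mem_filter.1 hb
        obtain ⟨hbd, hb0, hb1⟩ := hB b hb'.1
        have hfb : IsDyadic (f b) := by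
          refine ih ((B.filter fun c => c < b).card) ?_ b hb0 hb1 hbd rfl
          rw [← hn]
          apply Finset.card_lt_card
          refine ⟨fun c hc => ?_, fun hsub => ?_⟩
          · have := Finset.mem_filter.1 hc
            exact Finset.mem_filter.2 ⟨this.1, this.2.trans hb'.2⟩
          · have := Finset.mem_filter.1 (hsub hb)
            exact lt_irrefl _ this.2
        obtain ⟨k, c, hkc⟩ := hpl b z hb0.le hb'.2 hz1.le (by
          rintro b' hb'B ⟨h1, h2⟩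
          have := hmax b' (Finset.mem_filter.2 ⟨hb'B, h2⟩)
          exact absurd h1 (not_lt.2 this))
        have e1 := hkc b (left_mem_Icc.2 hb'.2.le)
        have e2 := hkc z (right_mem_Icc.2 hb'.2.le)
        have e3 : f z = 2 ^ k * (z - b) + f b := by rw [e1, e2]; ring
        rw [e3]
        exact ((isDyadic_zpow k).mul (hz.sub hbd)).add hfb
      · rw [Finset.not_nonempty_iff_eq_empty] at hne
        obtain ⟨k, c, hkc⟩ := hpl 0 z le_rfl hz0 hz1.le (by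
          rintro b' hb'B ⟨_, h2⟩
          have : b' ∈ (B.filter fun b => b < z) := Finset.mem_filter.2 ⟨hb'B, h2⟩
          rw [hne] at this
          simp at this)
        have e1 := hkc 0 (left_mem_Icc.2 hz0.le)
        have e2 := hkc z (right_mem_Icc.2 hz0.le)
        rw [h0 0 le_rfl] at e1
        have e3 : f z = 2 ^ k * z := by rw [e2]; linarith
        rw [e3]
        exact (isDyadic_zpow k).mul hz
  exact key _ z hz0 hz1 hz rfl

lemma IsF.one : IsF 1 := by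
  refine ⟨fun x _ => rfl, fun x _ => rfl, ∅, by simp, fun x y _ _ _ _ => ⟨0, 0, fun z _ => ?_⟩⟩
  simp

lemma IsF.inv {f : ℝ ≃o ℝ} (hf : IsF f) : IsF f⁻¹ := by
  classical
  have hdy := fun z hz => hf.dyadic (z := z) hz
  obtain ⟨h0, h1, B, hB, hpl⟩ := hf
  have hinv : ∀ x, f (f⁻¹ x) = x := fun x => f.apply_symm_apply x
  have hinv' : ∀ x, f⁻¹ (f x) = x := fun x => f.symm_apply_apply x
  have g0 : ∀ x, x ≤ 0 → f⁻¹ x = x := fun x hx => by
    conv_lhs => rw [← h0 x hx]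
    exact hinv' x
  have g1 : ∀ x, 1 ≤ x → f⁻¹ x = x := fun x hx => by
    conv_lhs => rw [← h1 x hx]
    exact hinv' x
  refine ⟨g0, g1, B.image (fun x => f x), ?_, ?_⟩
  · intro b hb
    obtain ⟨c, hc, rfl⟩ := Finset.mem_image.1 hb
    obtain ⟨hd, hc0, hc1⟩ := hB c hc
    refine ⟨hdy c hd, ?_, ?_⟩
    · have := f.lt_iff_lt.2 hc0
      rwa [h0 0 le_rfl] at this
    · have := f.lt_iff_lt.2 hc1
      rwa [h1 1 le_rfl] at this
  · intro x y hx hxy hy hno
    have hx' : 0 ≤ f⁻¹ x := by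
      have := (f⁻¹).le_iff_le.2 hx
      rwa [g0 0 le_rfl] at this
    have hy' : f⁻¹ y ≤ 1 := by
      have := (f⁻¹).le_iff_le.2 hy
      rwa [g1 1 le_rfl] at this
    have hxy' : f⁻¹ x < f⁻¹ y := (f⁻¹).lt_iff_lt.2 hxy
    obtain ⟨k, c, hkc⟩ := hpl (f⁻¹ x) (f⁻¹ y) hx' hxy' hy' (by
      rintro b hb ⟨e1, e2⟩
      refine hno (f b) (Finset.mem_image_of_mem _ hb) ⟨?_, ?_⟩
      · have := f.lt_iff_lt.2 e1
        rwa [hinv] at this
      · have := f.lt_iff_lt.2 e2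
        rwa [hinv] at this)
    refine ⟨-k, -(2 ^ (-k) * c), fun z hz => ?_⟩
    have hz' : f⁻¹ z ∈ Icc (f⁻¹ x) (f⁻¹ y) := ⟨(f⁻¹).le_iff_le.2 hz.1, (f⁻¹).le_iff_le.2 hz.2⟩
    have e := hkc _ hz'
    rw [hinv] at e
    have h2 : (2 : ℝ) ^ k ≠ 0 := by positivity
    have e' : (2 : ℝ) ^ k * f⁻¹ z = z - c := by linarith
    have e'' : f⁻¹ z = (z - c) / 2 ^ k := by
      rw [eq_div_iff h2, mul_comm]
      exact e'
    rw [e'', zpow_neg]
    field_simp
    ring

lemma IsF.mul {f g : ℝ ≃o ℝ} (hf : IsF f) (hg : IsF g) : IsF (f * g) := by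
  classical
  have hdy := fun z hz => hg.inv.dyadic (z := z) hz
  have hfg : ∀ x, (f * g) x = f (g x) := fun x => rfl
  obtain ⟨h0, h1, B, hB, hpl⟩ := hf
  obtain ⟨h0', h1', B', hB', hpl'⟩ := hg
  have hinv : ∀ x, g (g⁻¹ x) = x := fun x => g.apply_symm_apply x
  have hinv' : ∀ x, g⁻¹ (g x) = x := fun x => g.symm_apply_apply x
  have g0 : ∀ x, x ≤ 0 → g⁻¹ x = x := fun x hx => by
    conv_lhs => rw [← h0' x hx]
    exact hinv' x
  have g1 : ∀ x, 1 ≤ x → g⁻¹ x = x := fun x hx => by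
    conv_lhs => rw [← h1' x hx]
    exact hinv' x
  refine ⟨fun x hx => ?_, fun x hx => ?_, B' ∪ B.image (fun x => g⁻¹ x), ?_, ?_⟩
  · rw [hfg, h0' x hx, h0 x hx]
  · rw [hfg, h1' x hx, h1 x hx]
  · intro b hb
    rw [Finset.mem_union] at hb
    rcases hb with hb | hb
    · exact hB' b hb
    · obtain ⟨c, hc, rfl⟩ := Finset.mem_image.1 hb
      obtain ⟨hd, hc0, hc1⟩ := hB c hc
      refine ⟨hdy c hd, ?_, ?_⟩
      · have := (g⁻¹).lt_iff_lt.2 hc0
        rwa [g0 0 le_rfl] at this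
      · have := (g⁻¹).lt_iff_lt.2 hc1
        rwa [g1 1 le_rfl] at this
  · intro x y hx hxy hy hno
    obtain ⟨k', c', hkc'⟩ := hpl' x y hx hxy hy
      (fun b hb => hno b (Finset.mem_union_left _ hb))
    have hx' : 0 ≤ g x := by
      have := g.le_iff_le.2 hx
      rwa [h0' 0 le_rfl] at this
    have hy' : g y ≤ 1 := by
      have := g.le_iff_le.2 hy
      rwa [h1' 1 le_rfl] at this
    obtain ⟨k, c, hkc⟩ := hpl (g x) (g y) hx' (g.lt_iff_lt.2 hxy) hy' (by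
      rintro b hb ⟨e1, e2⟩
      refine hno (g⁻¹ b) (Finset.mem_union_right _ (Finset.mem_image_of_mem _ hb)) ⟨?_, ?_⟩
      · have := (g⁻¹).lt_iff_lt.2 e1
        rwa [hinv'] at this
      · have := (g⁻¹).lt_iff_lt.2 e2
        rwa [hinv'] at this)
    refine ⟨k + k', 2 ^ k * c' + c, fun z hz => ?_⟩
    rw [hfg, hkc _ ⟨g.le_iff_le.2 hz.1, g.le_iff_le.2 hz.2⟩, hkc' z hz, zpow_add₀ (by norm_num)]
    ring

/-- `f` is affine, with slope a power of two, just to the left of each point. -/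
lemma IsF.left {f : ℝ ≃o ℝ} (hf : IsF f) (x : ℝ) : ∃ ε > 0, ∃ (k : ℤ) (c : ℝ),
    ∀ z ∈ Icc (x - ε) x, f z = 2 ^ k * z + c := by
  classical
  obtain ⟨h0, h1, B, hB, hpl⟩ := hf
  rcases le_or_gt x 0 with hx0 | hx0
  · refine ⟨1, one_pos, 0, 0, fun z hz => ?_⟩
    rw [h0 z (hz.2.trans hx0)]
    simp
  rcases lt_or_ge 1 x with hx1 | hx1
  · refine ⟨x - 1, by linarith, 0, 0, fun z hz => ?_⟩
    rw [h1 z (by linarith [hz.1])]
    simp
  -- choose the largest element of `B ∪ {0}` below `x`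
  have hne : ((insert 0 B).filter fun b => b < x).Nonempty :=
    ⟨0, Finset.mem_filter.2 ⟨Finset.mem_insert_self _ _, hx0⟩⟩
  obtain ⟨b, hb, hmax⟩ := ((insert 0 B).filter fun b => b < x).exists_max_image id hne
  have hb' := Finset.mem_filter.1 hb
  have hb0 : 0 ≤ b := by
    rcases Finset.mem_insert.1 hb'.1 with h | h
    · rw [h]
    · exact (hB b h).2.1.le
  obtain ⟨k, c, hkc⟩ := hpl b x hb0 hb'.2 hx1 (by
    rintro b' hb'B ⟨e1, e2⟩
    have := hmax b' (Finset.mem_filter.2 ⟨Finset.mem_insert_of_mem hb'B, e2⟩)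
    exact absurd e1 (not_lt.2 this))
  refine ⟨x - b, by linarith [hb'.2], k, c, fun z hz => hkc z ⟨by linarith [hz.1], hz.2⟩⟩

/-- `f` is affine, with slope a power of two, just to the right of each point. -/
lemma IsF.right {f : ℝ ≃o ℝ} (hf : IsF f) (x : ℝ) : ∃ ε > 0, ∃ (k : ℤ) (c : ℝ),
    ∀ z ∈ Icc x (x + ε), f z = 2 ^ k * z + c := by
  classical
  obtain ⟨h0, h1, B, hB, hpl⟩ := hf
  rcases le_or_gt 1 x with hx1 | hx1
  · refine ⟨1, one_pos, 0, 0, fun z hz => ?_⟩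
    rw [h1 z (hx1.trans hz.1)]
    simp
  rcases lt_or_ge x 0 with hx0 | hx0
  · refine ⟨-x, by linarith, 0, 0, fun z hz => ?_⟩
    rw [h0 z (by linarith [hz.2])]
    simp
  have hne : ((insert 1 B).filter fun b => x < b).Nonempty :=
    ⟨1, Finset.mem_filter.2 ⟨Finset.mem_insert_self _ _, hx1⟩⟩
  obtain ⟨b, hb, hmin⟩ := ((insert 1 B).filter fun b => x < b).exists_min_image id hne
  have hb' := Finset.mem_filter.1 hb
  have hb1 : b ≤ 1 := by
    rcases Finset.mem_insert.1 hb'.1 with h | h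
    · rw [h]
    · exact (hB b h).2.2.le
  obtain ⟨k, c, hkc⟩ := hpl x b hx0 hb'.2 hb1 (by
    rintro b' hb'B ⟨e1, e2⟩
    have := hmin b' (Finset.mem_filter.2 ⟨Finset.mem_insert_of_mem hb'B, e1⟩)
    exact absurd e2 (not_lt.2 this))
  refine ⟨b - x, by linarith [hb'.2], k, c, fun z hz => hkc z ⟨hz.1, by linarith [hz.2]⟩⟩

end Pool.Agent.W_MP_80b09e_al
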