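import Mathlib
import Pool.Agent.W_MP_80b09e_al.Base
import Pool.Agent.W_MP_80b09e_al.PL

set_option autoImplicit false

open Set

/-!
Thompson's group `F` as a group, pairs of binary trees (diagrams over `⟨x | x² → x⟩`), the core of a set of
pairs of trees and the semigroup of its rewriting system.
-/

namespace Pool.Agent.W_MP_80b09e_al

/-- Thompson's group `F`, as a subgroup of the group of order automorphisms of the line. -/
def thompsonF : Subgroup (ℝ ≃o ℝ) where
  carrier := {f | IsF f}
  one_mem' := IsF.one
  mul_mem' := fun hf hg => IsF.mul hf hg
  inv_mem' := fun hf => IsF.inv hf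

/-- Finite rooted binary trees. -/
inductive BTree : Type
  | leaf : BTree
  | node : BTree → BTree → BTree

/-- The leaves of a tree from left to right. A vertex is given by the word that leads to it
from the root (`false` is left, `true` is right). -/
def BTree.leaves : BTree → List (List Bool)
  | .leaf => [[]]
  | .node l r => l.leaves.map (List.cons false) ++ r.leaves.map (List.cons true)

/-- `T.IsVertex w`: the word `w` leads from the root of `T` to a vertex of `T`. -/
def BTree.IsVertex : BTree → List Bool → Prop
  | _, [] => True
  | .leaf, _ :: _ => False
  | .node l _, false :: w => l.IsVertex w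
  | .node _ r, true :: w => r.IsVertex w

/-- Left endpoint of the dyadic interval of a word. -/
noncomputable def lo : List Bool → ℝ
  | [] => 0
  | b :: w => (if b then 1 / 2 else 0) + lo w / 2

/-- Length of the dyadic interval of a word. -/
noncomputable def len (w : List Bool) : ℝ := (1 / 2) ^ w.length

/-- `f` maps the dyadic interval of `w` onto that of `w'` by an increasing affine map. -/
def Maps (f : ℝ ≃o ℝ) (w w' : List Bool) : Prop :=
  ∀ s ∈ Icc (0 : ℝ) 1, f (lo w + s * len w) = lo w' + s * len w'

/-- The pair of trees `P` represents `f ∈ F`: the trees have the same number of leaves and `f` maps the interval of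
the `i`-th leaf of the first tree onto the interval of the `i`-th leaf of the second, by an increasing affine map. -/
def Represents (f : ℝ ≃o ℝ) (P : BTree × BTree) : Prop :=
  f ∈ thompsonF ∧ List.Forall₂ (Maps f) P.1.leaves P.2.leaves

/-- A pair of trees with the same number of leaves is reduced if there is no `i` such that the
`i`-th and the `(i+1)`-st leaf are the two children of one vertex in both trees. -/
def IsReduced (P : BTree × BTree) : Prop :=
  P.1.leaves.length = P.2.leaves.length ∧
  ¬ ∃ (i : ℕ) (u v : List Bool),
    P.1.leaves[i]? = some (u ++ [false]) ∧ P.1.leaves[i + 1]? = some (u ++ [true]) ∧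
    P.2.leaves[i]? = some (v ++ [false]) ∧ P.2.leaves[i + 1]? = some (v ++ [true])

/-- The edges of the diagrams of the pairs in `D`: the vertices of the first tree (`side = false`) and of the
second tree (`side = true`). -/
structure DEdge (D : Set (BTree × BTree)) : Type where
  pair : BTree × BTree
  mem : pair ∈ D
  side : Bool
  word : List Bool
  isVertex : (if side then pair.2 else pair.1).IsVertex word

variable {D : Set (BTree × BTree)}

/-- `DCell e e₀ e₁`: there is a cell in one of the diagrams with top edge `e` and bottom path `e₀, e₁`; this is a
vertex of one of the trees with its two children. -/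
def DCell (e e₀ e₁ : DEdge D) : Prop :=
  e₀.pair = e.pair ∧ e₁.pair = e.pair ∧ e₀.side = e.side ∧ e₁.side = e.side ∧
    e₀.word = e.word ++ [false] ∧ e₁.word = e.word ++ [true]

/-- The identifications that lead from the diagrams to the core. The edge `ρ` is `none`. -/
inductive Fold (D : Set (BTree × BTree)) : Option (DEdge D) → Option (DEdge D) → Prop
  | refl (x) : Fold D x x
  | symm {x y} : Fold D x y → Fold D y x
  | trans {x y z} : Fold D x y → Fold D y z → Fold D x z
  /-- the top edge and the bottom edge of a diagram are identified to `ρ` -/
  | root (e : DEdge D) : e.word = [] → Fold D (some e) none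
  /-- the `i`-th leaves of the two trees of a pair are the same edge of the diagram -/
  | leaf (e e' : DEdge D) (i : ℕ) : e.pair = e'.pair → e.side = false → e'.side = true →
      e.pair.1.leaves[i]? = some e.word → e'.pair.2.leaves[i]? = some e'.word →
      Fold D (some e) (some e')
  /-- cells with the same top edge are identified -/
  | top₀ {e e₀ e₁ e' e₀' e₁' : DEdge D} : DCell e e₀ e₁ → DCell e' e₀' e₁' →
      Fold D (some e) (some e') → Fold D (some e₀) (some e₀')
  | top₁ {e e₀ e₁ e' e₀' e₁' : DEdge D} : DCell e e₀ e₁ → DCell e' e₀' e₁' →
      Fold D (some e) (some e') → Fold D (some e₁) (some e₁')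
  /-- cells with the same bottom path are identified -/
  | bot {e e₀ e₁ e' e₀' e₁' : DEdge D} : DCell e e₀ e₁ → DCell e' e₀' e₁' →
      Fold D (some e₀) (some e₀') → Fold D (some e₁) (some e₁') → Fold D (some e) (some e')

/-- The identifications form an equivalence relation. -/
def foldSetoid (D : Set (BTree × BTree)) : Setoid (Option (DEdge D)) where
  r := Fold D
  iseqv := ⟨Fold.refl, Fold.symm, Fold.trans⟩

/-- The edges of the core. -/
def CoreEdge (D : Set (BTree × BTree)) : Type := Quotient (foldSetoid D)

/-- `CoreCell a b c`: the core has a cell with top edge `c` and bottom path `a, b`. -/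
def CoreCell (D : Set (BTree × BTree)) (a b c : CoreEdge D) : Prop :=
  ∃ e e₀ e₁ : DEdge D, DCell e e₀ e₁ ∧ a = Quotient.mk (foldSetoid D) (some e₀) ∧
    b = Quotient.mk (foldSetoid D) (some e₁) ∧ c = Quotient.mk (foldSetoid D) (some e)

/-- The relations `a b = c` of the semigroup, one for each cell of the core. -/
def CoreRel (D : Set (BTree × BTree)) (x y : FreeSemigroup (CoreEdge D)) : Prop :=
  ∃ a b c, CoreCell D a b c ∧ x = FreeSemigroup.of a * FreeSemigroup.of b ∧ y = FreeSemigroup.of c

/-- The semigroup defined by the core rewriting system. -/
abbrev CoreSemigroup (D : Set (BTree × BTree)) : Type := (conGen (CoreRel D)).Quotient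

end Pool.Agent.W_MP_80b09e_al
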