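import Mathlib
import Pool.Agent.W_MP_80b09e_al.Defs

set_option autoImplicit false

open Set

namespace Pool.Agent.W_MP_80b09e_al

@[simp] lemma mulA (f g : ℝ ≃o ℝ) (x : ℝ) : (f * g) x = f (g x) := rfl
@[simp] lemma oneA (x : ℝ) : (1 : ℝ ≃o ℝ) x = x := rfl
@[simp] lemma invA (f : ℝ ≃o ℝ) (x : ℝ) : f⁻¹ (f x) = x := f.symm_apply_apply x
@[simp] lemma invA' (f : ℝ ≃o ℝ) (x : ℝ) : f (f⁻¹ x) = x := f.apply_symm_apply x

lemma powA_succ (f : ℝ ≃o ℝ) (n : ℕ) (x : ℝ) : (f ^ (n + 1)) x = (f ^ n) (f x) := by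
  rw [pow_succ]; rfl

lemma powA_succ' (f : ℝ ≃o ℝ) (n : ℕ) (x : ℝ) : (f ^ (n + 1)) x = f ((f ^ n) x) := by
  rw [pow_succ']; rfl

lemma pow_fix {f : ℝ ≃o ℝ} {x : ℝ} (h : f x = x) (n : ℕ) : (f ^ n) x = x := by
  induction n with
  | zero => simp
  | succ n ih => rw [powA_succ, h, ih]

lemma inv_fix {f : ℝ ≃o ℝ} {x : ℝ} (h : f x = x) : f⁻¹ x = x := by
  conv_lhs => rw [← h]
  simp

lemma IsF.mem01 {f : ℝ ≃o ℝ} (hf : IsF f) {x : ℝ} (h : x ∈ Icc (0 : ℝ) 1) :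
    f x ∈ Icc (0 : ℝ) 1 := by
  constructor
  · have := f.monotone h.1
    rwa [hf.1 0 le_rfl] at this
  · have := f.monotone h.2
    rwa [hf.2.1 1 le_rfl] at this

lemma IsF.moved {f : ℝ ≃o ℝ} (hf : IsF f) {x : ℝ} (h : f x ≠ x) : x ∈ Ioo (0 : ℝ) 1 := by
  constructor
  · by_contra hcon
    exact h (hf.1 x (not_lt.1 hcon))
  · by_contra hcon
    exact h (hf.2.1 x (not_lt.1 hcon))

lemma map_sInf_eq {g : ℝ ≃o ℝ} {S : Set ℝ} (hne : S.Nonempty) (hb : BddBelow S)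
    (h1 : ∀ x ∈ S, g x ∈ S) (h2 : ∀ x ∈ S, g⁻¹ x ∈ S) : g (sInf S) = sInf S := by
  apply le_antisymm
  · refine le_csInf hne fun y hy => ?_
    have := g.monotone (csInf_le hb (h2 y hy))
    simpa using this
  · have : g⁻¹ (sInf S) ≤ sInf S := by
      refine le_csInf hne fun y hy => ?_
      have := (g⁻¹).monotone (csInf_le hb (h1 y hy))
      simpa using this
    have := g.monotone this
    simpa using this

lemma map_sSup_eq {g : ℝ ≃o ℝ} {S : Set ℝ} (hne : S.Nonempty) (hb : BddAbove S)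
    (h1 : ∀ x ∈ S, g x ∈ S) (h2 : ∀ x ∈ S, g⁻¹ x ∈ S) : g (sSup S) = sSup S := by
  apply le_antisymm
  · have : sSup S ≤ g⁻¹ (sSup S) := by
      refine csSup_le hne fun y hy => ?_
      have := (g⁻¹).monotone (le_csSup hb (h1 y hy))
      simpa using this
    have := g.monotone this
    simpa using this
  · refine csSup_le hne fun y hy => ?_
    have := g.monotone (le_csSup hb (h2 y hy))
    simpa using this

/-- Linear to the right of the fixed point `p`, with multiplier `c`. -/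
def Lin (f : ℝ ≃o ℝ) (p c δ : ℝ) : Prop := ∀ z ∈ Icc p (p + δ), f z = p + c * (z - p)

lemma IsF.lin {f : ℝ ≃o ℝ} (hf : IsF f) {p : ℝ} (hp : f p = p) :
    ∃ (k : ℤ) (δ : ℝ), 0 < δ ∧ Lin f p (2 ^ k) δ := by
  obtain ⟨δ, hδ, k, c, h⟩ := hf.right p
  refine ⟨k, δ, hδ, fun z hz => ?_⟩
  have h1 := h p ⟨le_rfl, by linarith⟩
  rw [hp] at h1
  rw [h z hz]
  linarith

lemma Lin.mono {f : ℝ ≃o ℝ} {p c δ δ' : ℝ} (h : Lin f p c δ) (hδ : δ' ≤ δ) : Lin f p c δ' :=
  fun z hz => h z ⟨hz.1, by linarith [hz.2]⟩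

lemma Lin.mul {f g : ℝ ≃o ℝ} {p c d δ δ' : ℝ} (hf : Lin f p c δ') (hg : Lin g p d δ)
    (hd : 0 ≤ d) (h : d * δ ≤ δ') : Lin (f * g) p (c * d) δ := by
  intro z hz
  rw [mulA, hg z hz, hf]
  · ring
  · constructor
    · have := mul_nonneg hd (sub_nonneg.2 hz.1)
      linarith
    · have : d * (z - p) ≤ d * δ := mul_le_mul_of_nonneg_left (by linarith [hz.2]) hd
      linarith

lemma Lin.pow {f : ℝ ≃o ℝ} {p c δ : ℝ} (hf : Lin f p c δ) (h0 : 0 ≤ c) (h1 : c ≤ 1) (hδ : 0 ≤ δ)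
    (n : ℕ) : Lin (f ^ n) p (c ^ n) δ := by
  induction n with
  | zero => intro z _; simp
  | succ n ih =>
    rw [pow_succ, pow_succ]
    exact ih.mul hf h0 (by nlinarith)

lemma Lin.not_fixed {f : ℝ ≃o ℝ} {p c δ z : ℝ} (hf : Lin f p c δ) (hc : c ≠ 1) (hz : p < z)
    (hz' : z ≤ p + δ) : f z ≠ z := by
  rw [hf z ⟨hz.le, hz'⟩]
  intro h
  apply hc
  have h1 : (c - 1) * (z - p) = 0 := by linarith
  rcases mul_eq_zero.1 h1 with h2 | h2
  · linarith
  · exact absurd h2 (by linarith)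

lemma two_zpow_ne_one {k : ℤ} (hk : k ≠ 0) : (2 : ℝ) ^ k ≠ 1 := by
  intro h
  apply hk
  have := zpow_right_injective₀ (a := (2 : ℝ)) (by norm_num) (by norm_num) (a₁ := k) (a₂ := 0)
    (by simpa using h)
  exact this

/-- If `β` commutes with `α` and `p` is the last fixed point of `α` before `ξ`, then `β p ≤ p`. -/
lemma commute_le {α β : ℝ ≃o ℝ} (hα : IsF α) (hβ : IsF β) (hc : Commute α β) {p ξ : ℝ}
    (hp : α p = p) (hpξ : p < ξ) (hno : ∀ z, p < z → z ≤ ξ → α z ≠ z) : β p ≤ p := by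
  by_contra hcon
  rw [not_le] at hcon
  have h01 := hβ.moved hcon.ne'
  set x : ℕ → ℝ := fun n => (β ^ n) p with hx
  have hmono : StrictMono x := by
    refine strictMono_nat_of_lt_succ fun n => ?_
    simp only [hx]
    rw [powA_succ]
    exact (β ^ n).lt_iff_lt.2 hcon
  have hle : ∀ n, x n ≤ 1 := by
    intro n
    have := (β ^ n).monotone h01.2.le
    rwa [pow_fix (hβ.2.1 1 le_rfl)] at this
  have hb : BddAbove (range x) := ⟨1, by rintro _ ⟨n, rfl⟩; exact hle n⟩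
  have hcn : ∀ n : ℕ, Commute α (β ^ n) := fun n => hc.pow_right n
  have hcn' : ∀ (n : ℕ) (z : ℝ), α ((β ^ n) z) = (β ^ n) (α z) := by
    intro n z
    have := DFunLike.congr_fun (hcn n).eq z
    simpa using this
  have hfix : ∀ n, α (x n) = x n := by
    intro n
    simp only [hx]
    rw [hcn', hp]
  obtain ⟨ε, hε, k, c, hk⟩ := hα.left (⨆ n, x n)
  obtain ⟨n, hn⟩ := exists_lt_of_lt_ciSup (show (⨆ n, x n) - ε < ⨆ n, x n by linarith)
  have hn1 := le_ciSup hb n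
  have hn2 := le_ciSup hb (n + 1)
  have hlt : x n < x (n + 1) := hmono (Nat.lt_succ_self n)
  have e1 := hk (x n) ⟨hn.le, hn1⟩
  have e2 := hk (x (n + 1)) ⟨by linarith, hn2⟩
  rw [hfix] at e1 e2
  have e3 : ((2 : ℝ) ^ k - 1) * (x (n + 1) - x n) = 0 := by linarith
  have e4 : (2 : ℝ) ^ k = 1 := by
    rcases mul_eq_zero.1 e3 with h | h
    · linarith
    · exact absurd h (by linarith)
  rw [e4] at e1 e2
  have hc0 : c = 0 := by linarith
  -- a moved point in `(p, β p]`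
  have hz1 : p < min ξ (β p) := lt_min hpξ hcon
  apply hno (min ξ (β p)) hz1 (min_le_left _ _)
  have h1 : x n ≤ (β ^ n) (min ξ (β p)) := (β ^ n).monotone hz1.le
  have h2 : (β ^ n) (min ξ (β p)) ≤ x (n + 1) := by
    simp only [hx]
    rw [powA_succ]
    exact (β ^ n).monotone (min_le_right _ _)
  have h3 := hk ((β ^ n) (min ξ (β p))) ⟨by linarith, by linarith⟩
  rw [e4, hc0, hcn'] at h3
  apply (β ^ n).injective
  linarith

lemma commute_inv_isF {α β : ℝ ≃o ℝ} (hα : IsF α) (hβ : IsF β) (hc : Commute α β) {p ξ : ℝ}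
    (hp : α p = p) (hpξ : p < ξ) (hno : ∀ z, p < z → z ≤ ξ → α z ≠ z) : β p = p := by
  apply le_antisymm
  · exact commute_le hα hβ hc hp hpξ hno
  · have := commute_le hα hβ.inv hc.inv_right hp hpξ hno
    have := β.monotone this
    simpa using this

/-- The iterates of a contraction towards a fixed point. -/
lemma iterates_approach {α : ℝ ≃o ℝ} {p ξ δ : ℝ} (hp : α p = p) (hpξ : p < ξ) (hδ : 0 < δ)
    (hno : ∀ z, p < z → z ≤ ξ → α z ≠ z) (hlt : α ξ < ξ) : ∃ n : ℕ, (α ^ n) ξ < p + δ := by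
  set x : ℕ → ℝ := fun n => (α ^ n) ξ with hx
  have hanti : StrictAnti x := by
    refine strictAnti_nat_of_succ_lt fun n => ?_
    simp only [hx]
    rw [powA_succ]
    exact (α ^ n).lt_iff_lt.2 hlt
  have hge : ∀ n, p ≤ x n := by
    intro n
    have := (α ^ n).monotone hpξ.le
    rwa [pow_fix hp] at this
  have hb : BddBelow (range x) := ⟨p, by rintro _ ⟨n, rfl⟩; exact hge n⟩
  have hfix : α (⨅ n, x n) = ⨅ n, x n := by
    apply le_antisymm
    · refine le_ciInf fun n => ?_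
      have h1 : α (⨅ n, x n) ≤ α (x n) := α.monotone (ciInf_le hb n)
      have h2 : α (x n) = x (n + 1) := by simp only [hx]; rw [powA_succ']
      have h3 : x (n + 1) < x n := hanti (Nat.lt_succ_self n)
      linarith
    · have : α⁻¹ (⨅ n, x n) ≤ ⨅ n, x n := by
        refine le_ciInf fun n => ?_
        have h1 : α⁻¹ (⨅ n, x n) ≤ α⁻¹ (x (n + 1)) := (α⁻¹).monotone (ciInf_le hb (n + 1))
        have h2 : x (n + 1) = α (x n) := by simp only [hx]; rw [powA_succ']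
        rw [h2] at h1
        simpa using h1
      have := α.monotone this
      simpa using this
  have hinf : (⨅ n, x n) = p := by
    by_contra hcon
    have h1 : p ≤ ⨅ n, x n := le_ciInf hge
    have h2 : (⨅ n, x n) ≤ ξ := by
      have := ciInf_le hb 0
      simpa [hx] using this
    exact hno _ (lt_of_le_of_ne h1 (Ne.symm hcon)) h2 hfix
  obtain ⟨n, hn⟩ := exists_lt_of_ciInf_lt (show (⨅ n, x n) < p + δ by rw [hinf]; linarith)
  exact ⟨n, hn⟩

/-- Two elements of `F` that commute with `α ∈ F` commute at every point moved by `α`. -/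
lemma comm_point {α β₁ β₂ : ℝ ≃o ℝ} (hα : IsF α) (hβ₁ : IsF β₁) (hβ₂ : IsF β₂)
    (h1 : Commute α β₁) (h2 : Commute α β₂) {ξ : ℝ} (hξ : α ξ ≠ ξ) :
    β₁ (β₂ ξ) = β₂ (β₁ ξ) := by
  -- it is enough to treat `α ξ < ξ`
  have key : ∀ α : ℝ ≃o ℝ, IsF α → Commute α β₁ → Commute α β₂ → α ξ < ξ →
      β₁ (β₂ ξ) = β₂ (β₁ ξ) := by
    intro α hα h1 h2 hlt
    have h01 := hα.moved hlt.ne
    set S : Set ℝ := {z | z ≤ ξ ∧ α z = z} with hS
    have hne : S.Nonempty := ⟨0, h01.1.le, hα.1 0 le_rfl⟩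
    have hb : BddAbove S := ⟨ξ, fun z hz => hz.1⟩
    have hp : α (sSup S) = sSup S := by
      refine map_sSup_eq hne hb (fun x hx => ?_) (fun x hx => ?_)
      · rw [hx.2]; exact hx
      · rw [inv_fix hx.2]; exact hx
    set p := sSup S with hpdef
    have hple : p ≤ ξ := csSup_le hne fun z hz => hz.1
    have hpξ : p < ξ := by
      refine lt_of_le_of_ne hple fun h => ?_
      rw [h] at hp
      exact hlt.ne hp
    have hno : ∀ z, p < z → z ≤ ξ → α z ≠ z := by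
      intro z hz hz' hcon
      exact absurd (le_csSup hb (show z ∈ S from ⟨hz', hcon⟩)) (not_le.2 hz)
    have hp1 := commute_inv_isF hα hβ₁ h1 hp hpξ hno
    have hp2 := commute_inv_isF hα hβ₂ h2 hp hpξ hno
    obtain ⟨k₁, δ₁, hδ₁, hl1⟩ := hβ₁.lin hp1
    obtain ⟨k₂, δ₂, hδ₂, hl2⟩ := hβ₂.lin hp2
    have c1 : (0 : ℝ) < 2 ^ k₁ := by positivity
    have c2 : (0 : ℝ) < 2 ^ k₂ := by positivity
    -- a common interval
    obtain ⟨δ, hδ, hd1, hd2, hd3, hd4⟩ : ∃ δ : ℝ, 0 < δ ∧ δ ≤ δ₁ ∧ δ ≤ δ₂ ∧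
        2 ^ k₂ * δ ≤ δ₁ ∧ 2 ^ k₁ * δ ≤ δ₂ := by
      refine ⟨min (min δ₁ δ₂) (min (δ₁ / 2 ^ k₂) (δ₂ / 2 ^ k₁)), ?_, ?_, ?_, ?_, ?_⟩
      · exact lt_min (lt_min hδ₁ hδ₂) (lt_min (by positivity) (by positivity))
      · exact (min_le_left _ _).trans (min_le_left _ _)
      · exact (min_le_left _ _).trans (min_le_right _ _)
      · have : min (min δ₁ δ₂) (min (δ₁ / 2 ^ k₂) (δ₂ / 2 ^ k₁)) ≤ δ₁ / 2 ^ k₂ :=
          (min_le_right _ _).trans (min_le_left _ _)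
        rw [le_div_iff₀ c2] at this
        linarith
      · have : min (min δ₁ δ₂) (min (δ₁ / 2 ^ k₂) (δ₂ / 2 ^ k₁)) ≤ δ₂ / 2 ^ k₁ :=
          (min_le_right _ _).trans (min_le_right _ _)
        rw [le_div_iff₀ c1] at this
        linarith
    have m1 := hl1.mul (hl2.mono hd2) c2.le hd3
    have m2 := hl2.mul (hl1.mono hd1) c1.le hd4
    obtain ⟨n, hn⟩ := iterates_approach hp hpξ hδ hno hlt
    have hn' : p ≤ (α ^ n) ξ := by
      have := (α ^ n).monotone hple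
      rwa [pow_fix hp] at this
    have e1 := m1 _ ⟨hn', hn.le⟩
    have e2 := m2 _ ⟨hn', hn.le⟩
    rw [mulA] at e1 e2
    have e3 : β₁ (β₂ ((α ^ n) ξ)) = β₂ (β₁ ((α ^ n) ξ)) := by rw [e1, e2]; ring
    have hc1 : ∀ z, β₁ ((α ^ n) z) = (α ^ n) (β₁ z) := by
      intro z
      have := DFunLike.congr_fun (h1.pow_left n).eq z
      simpa using this.symm
    have hc2 : ∀ z, β₂ ((α ^ n) z) = (α ^ n) (β₂ z) := by
      intro z
      have := DFunLike.congr_fun (h2.pow_left n).eq z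
      simpa using this.symm
    rw [hc2, hc1, hc1, hc2] at e3
    exact (α ^ n).injective e3
  rcases lt_or_gt_of_ne hξ with h | h
  · exact key α hα h1 h2 h
  · refine key α⁻¹ hα.inv h1.inv_left h2.inv_left ?_
    have := (α⁻¹).lt_iff_lt.2 h
    simpa using this

end Pool.Agent.W_MP_80b09e_al
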