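import Mathlib
import Pool.Agent.W_MP_80b09e_al.Dyn

set_option autoImplicit false

open Set

namespace Pool.Agent.W_MP_80b09e_al

noncomputable def bumpFun (c d z : ℝ) : ℝ :=
  max z (min (2 * z - c) (min (z + (d - c) / 4) (z / 2 + d / 2)))

lemma bumpFun_of_le {c d z : ℝ} (h : z ≤ c) : bumpFun c d z = z := by
  unfold bumpFun
  apply max_eq_left
  exact (min_le_left _ _).trans (by linarith)

lemma bumpFun_of_ge {c d z : ℝ} (h : d ≤ z) : bumpFun c d z = z := by
  unfold bumpFun
  apply max_eq_left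
  exact (min_le_right _ _).trans ((min_le_right _ _).trans (by linarith))

lemma bumpFun_one {c d z : ℝ} (h1 : c ≤ z) (h2 : z ≤ c + (d - c) / 4) :
    bumpFun c d z = 2 * z - c := by
  unfold bumpFun
  have e : min (2 * z - c) (min (z + (d - c) / 4) (z / 2 + d / 2)) = 2 * z - c := by
    apply min_eq_left
    apply le_min <;> linarith
  rw [e]
  apply max_eq_right
  linarith

lemma bumpFun_two {c d z : ℝ} (hcd : c < d) (h1 : c + (d - c) / 4 ≤ z) (h2 : z ≤ c + (d - c) / 2) :
    bumpFun c d z = z + (d - c) / 4 := by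
  unfold bumpFun
  have e : min (2 * z - c) (min (z + (d - c) / 4) (z / 2 + d / 2)) = z + (d - c) / 4 := by
    rw [min_eq_left (show z + (d - c) / 4 ≤ z / 2 + d / 2 by linarith)]
    apply min_eq_right
    linarith
  rw [e]
  apply max_eq_right
  linarith

lemma bumpFun_three {c d z : ℝ} (h1 : c + (d - c) / 2 ≤ z) (h2 : z ≤ d) :
    bumpFun c d z = z / 2 + d / 2 := by
  unfold bumpFun
  have e : min (2 * z - c) (min (z + (d - c) / 4) (z / 2 + d / 2)) = z / 2 + d / 2 := by
    rw [min_eq_right (show z / 2 + d / 2 ≤ z + (d - c) / 4 by linarith)]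
    apply min_eq_right
    linarith
  rw [e]
  apply max_eq_right
  linarith

lemma bumpFun_strictMono (c d : ℝ) : StrictMono (bumpFun c d) := by
  intro x y h
  unfold bumpFun
  apply max_lt_max h
  apply min_lt_min (by linarith)
  exact min_lt_min (by linarith) (by linarith)

lemma bumpFun_continuous (c d : ℝ) : Continuous (bumpFun c d) := by
  unfold bumpFun
  fun_prop

lemma le_bumpFun (c d z : ℝ) : z ≤ bumpFun c d z := le_max_left _ _

lemma lt_bumpFun {c d z : ℝ} (h1 : c < z) (h2 : z < d) : z < bumpFun c d z := by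
  unfold bumpFun
  apply lt_max_of_lt_right
  apply lt_min (by linarith)
  exact lt_min (by linarith) (by linarith)

lemma bumpFun_surjective (c d : ℝ) : Function.Surjective (bumpFun c d) := by
  intro y
  have h1 : min y c ≤ y := min_le_left _ _
  have := intermediate_value_Icc h1 (bumpFun_continuous c d).continuousOn
  rw [bumpFun_of_le (min_le_right y c)] at this
  obtain ⟨z, -, hz⟩ := this ⟨h1, le_bumpFun c d y⟩
  exact ⟨z, hz⟩

/-- A bump. -/
noncomputable def bump (c d : ℝ) : ℝ ≃o ℝ :=
  (bumpFun_strictMono c d).orderIsoOfSurjective _ (bumpFun_surjective c d)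

lemma bump_apply (c d z : ℝ) : bump c d z = bumpFun c d z := rfl

lemma bump_isF {c d : ℝ} (hc : IsDyadic c) (hd : IsDyadic d) (h0 : 0 ≤ c) (h1 : c < d)
    (h2 : d ≤ 1) : IsF (bump c d) := by
  classical
  refine ⟨fun x hx => bumpFun_of_le (hx.trans h0), fun x hx => bumpFun_of_ge (h2.trans hx),
    ({c, c + (d - c) / 4, c + (d - c) / 2, d} : Finset ℝ).filter (fun b => 0 < b ∧ b < 1), ?_, ?_⟩
  · intro b hb
    rw [Finset.mem_filter] at hb
    refine ⟨?_, hb.2⟩
    have q4 : IsDyadic (1 / 4) := ⟨1, 2, by norm_num⟩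
    have q2 : IsDyadic (1 / 2) := ⟨1, 1, by norm_num⟩
    have hb1 := hb.1
    simp only [Finset.mem_insert, Finset.mem_singleton] at hb1
    rcases hb1 with rfl | rfl | rfl | rfl
    · exact hc
    · have := hc.add ((hd.sub hc).mul q4)
      simpa [div_eq_mul_inv] using this
    · have := hc.add ((hd.sub hc).mul q2)
      simpa [div_eq_mul_inv] using this
    · exact hd
  · intro x y hx hxy hy hno
    have hno' : ∀ b ∈ ({c, c + (d - c) / 4, c + (d - c) / 2, d} : Finset ℝ), ¬ (x < b ∧ b < y) := by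
      intro b hb hb'
      exact hno b (Finset.mem_filter.2 ⟨hb, by linarith, by linarith⟩) hb'
    have n1 := hno' c (by simp)
    have n2 := hno' (c + (d - c) / 4) (by simp)
    have n3 := hno' (c + (d - c) / 2) (by simp)
    have n4 := hno' d (by simp)
    rcases le_or_gt y c with g1 | g1
    · refine ⟨0, 0, fun z hz => ?_⟩
      rw [bump_apply, bumpFun_of_le (hz.2.trans g1)]
      simp
    have g1' : c ≤ x := by
      by_contra hcon
      exact n1 ⟨not_le.1 hcon, g1⟩
    rcases le_or_gt y (c + (d - c) / 4) with g2 | g2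
    · refine ⟨1, -c, fun z hz => ?_⟩
      rw [bump_apply, bumpFun_one (g1'.trans hz.1) (hz.2.trans g2)]
      norm_num
      ring
    have g2' : c + (d - c) / 4 ≤ x := by
      by_contra hcon
      exact n2 ⟨not_le.1 hcon, g2⟩
    rcases le_or_gt y (c + (d - c) / 2) with g3 | g3
    · refine ⟨0, (d - c) / 4, fun z hz => ?_⟩
      rw [bump_apply, bumpFun_two h1 (g2'.trans hz.1) (hz.2.trans g3)]
      norm_num
    have g3' : c + (d - c) / 2 ≤ x := by
      by_contra hcon
      exact n3 ⟨not_le.1 hcon, g3⟩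
    rcases le_or_gt y d with g4 | g4
    · refine ⟨-1, d / 2, fun z hz => ?_⟩
      rw [bump_apply, bumpFun_three (g3'.trans hz.1) (hz.2.trans g4)]
      rw [zpow_neg_one]
      ring
    have g4' : d ≤ x := by
      by_contra hcon
      exact n4 ⟨not_le.1 hcon, g4⟩
    refine ⟨0, 0, fun z hz => ?_⟩
    rw [bump_apply, bumpFun_of_ge (g4'.trans hz.1)]
    simp

lemma commute_of_supports {f g : ℝ ≃o ℝ} {x : ℝ} (hf : ∀ z, x ≤ z → f z = z)
    (hg : ∀ z, z ≤ x → g z = z) : Commute f g := by
  apply DFunLike.ext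
  intro z
  rw [mulA, mulA]
  rcases le_total z x with h | h
  · have h1 : f z ≤ x := by
      have := f.monotone h
      rwa [hf x le_rfl] at this
    rw [hg z h, hg (f z) h1]
  · have h1 : x ≤ g z := by
      have := g.monotone h
      rwa [hg x le_rfl] at this
    rw [hf z h, hf (g z) h1]

end Pool.Agent.W_MP_80b09e_al
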