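import Mathlib
import Pool.Agent.W_MP_80b09e_al.Defs

set_option autoImplicit false

open Set

namespace Pool.Agent.W_MP_80b09e_al

section words

@[simp] lemma lo_nil : lo [] = 0 := rfl
lemma lo_cons (b : Bool) (w : List Bool) :
    lo (b :: w) = (if b then 1 / 2 else 0) + lo w / 2 := rfl
@[simp] lemma len_nil : len [] = 1 := by simp [len]
lemma len_cons (b : Bool) (w : List Bool) : len (b :: w) = len w / 2 := by
  simp [len, pow_succ]; ring

lemma len_pos (w : List Bool) : 0 < len w := by unfold len; positivity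

lemma len_append (w u : List Bool) : len (w ++ u) = len w * len u := by
  simp [len, pow_add]

lemma lo_append (w u : List Bool) : lo (w ++ u) = lo w + len w * lo u := by
  induction w with
  | nil => simp
  | cons b w ih => rw [List.cons_append, lo_cons, lo_cons, len_cons, ih]; ring

lemma lo_nonneg (w : List Bool) : 0 ≤ lo w := by
  induction w with
  | nil => simp
  | cons b w ih => rw [lo_cons]; split_ifs <;> linarith

lemma hi_le_one (w : List Bool) : lo w + len w ≤ 1 := by
  induction w with
  | nil => simp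
  | cons b w ih => rw [lo_cons, len_cons]; split_ifs <;> linarith

lemma Maps.append {f : ℝ ≃o ℝ} {w w' : List Bool} (h : Maps f w w') (u : List Bool) :
    Maps f (w ++ u) (w' ++ u) := by
  intro s hs
  have h1 := lo_nonneg u
  have h2 := hi_le_one u
  have h3 := (len_pos u)
  have hs' : lo u + s * len u ∈ Icc (0 : ℝ) 1 := by
    constructor
    · have := mul_nonneg hs.1 h3.le
      linarith
    · have := mul_le_mul_of_nonneg_right hs.2 h3.le
      linarith
  have := h _ hs'
  rw [lo_append, lo_append, len_append, len_append]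
  rw [show lo w + len w * lo u + s * (len w * len u) = lo w + (lo u + s * len u) * len w by ring,
    this]
  ring

lemma Maps.inv {f : ℝ ≃o ℝ} {w w' : List Bool} (h : Maps f w w') : Maps f⁻¹ w' w := by
  intro s hs
  rw [← h s hs]
  exact f.symm_apply_apply _

lemma Maps.lo {f : ℝ ≃o ℝ} {w w' : List Bool} (h : Maps f w w') : f (lo w) = lo w' := by
  have := h 0 (by norm_num)
  simpa using this

lemma Maps.hi {f : ℝ ≃o ℝ} {w w' : List Bool} (h : Maps f w w') :
    f (Pool.Agent.W_MP_80b09e_al.lo w + len w) = Pool.Agent.W_MP_80b09e_al.lo w' + len w' := by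
  have := h 1 (by norm_num)
  simpa using this

lemma Maps.comp {f g : ℝ ≃o ℝ} {w w' w'' : List Bool} (hf : Maps f w' w'') (hg : Maps g w w') :
    Maps (f * g) w w'' := by
  intro s hs
  rw [← hf s hs, ← hg s hs]
  rfl

lemma exists_append_of_lo_eq {w w' : List Bool} (h : lo w = lo w') (hl : w.length ≤ w'.length) :
    ∃ u, w' = w ++ u := by
  induction w generalizing w' with
  | nil => exact ⟨w', rfl⟩
  | cons b w ih =>
    cases w' with
    | nil => simp at hl
    | cons b' w' =>
      have h1 := lo_nonneg w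
      have h2 := lo_nonneg w'
      have h3 := hi_le_one w
      have h4 := hi_le_one w'
      have h5 := len_pos w
      have h6 := len_pos w'
      rw [lo_cons, lo_cons] at h
      have hb : b = b' := by
        cases b <;> cases b' <;> simp at h ⊢ <;> linarith
      subst hb
      obtain ⟨u, rfl⟩ := ih (w' := w') (by linarith) (by simpa using hl)
      exact ⟨u, rfl⟩

end words

variable {D : Set (BTree × BTree)}

/-- The edge `ρ` of the core. -/
def rho (D : Set (BTree × BTree)) : CoreEdge D := Quotient.mk (foldSetoid D) none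

/-- The class of an edge of a diagram. -/
def mkE (e : DEdge D) : CoreEdge D := Quotient.mk (foldSetoid D) (some e)

/-- The class of an edge in the semigroup. -/
def cls (e : CoreEdge D) : CoreSemigroup D := ((FreeSemigroup.of e : FreeSemigroup _) : (conGen (CoreRel D)).Quotient)

lemma CoreCell.fst_unique {a b a' b' c : CoreEdge D} (h : CoreCell D a b c)
    (h' : CoreCell D a' b' c) : a = a' := by
  obtain ⟨e, e₀, e₁, hc, rfl, rfl, rfl⟩ := h
  obtain ⟨e', e₀', e₁', hc', rfl, rfl, h3⟩ := h'
  exact Quotient.sound (s := foldSetoid D) (Fold.top₀ hc hc' (Quotient.exact h3))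

lemma CoreCell.snd_unique {a b a' b' c : CoreEdge D} (h : CoreCell D a b c)
    (h' : CoreCell D a' b' c) : b = b' := by
  obtain ⟨e, e₀, e₁, hc, rfl, rfl, rfl⟩ := h
  obtain ⟨e', e₀', e₁', hc', rfl, rfl, h3⟩ := h'
  exact Quotient.sound (s := foldSetoid D) (Fold.top₁ hc hc' (Quotient.exact h3))

lemma CoreCell.cls_mul {a b c : CoreEdge D} (h : CoreCell D a b c) :
    cls a * cls b = cls c := by
  unfold cls
  rw [← Con.coe_mul, Con.eq]
  exact ConGen.Rel.of _ _ ⟨a, b, c, h, rfl, rfl⟩

/-- The edge is the top edge of a cell of the core. -/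
def Splits (e : CoreEdge D) : Prop := ∃ a b, CoreCell D a b e

/-- `LabFrom e w e'`: following the word `w` from the edge `e` through cells leads to `e'`. -/
def LabFrom : CoreEdge D → List Bool → CoreEdge D → Prop
  | e, [], e' => e = e'
  | e, false :: w, e' => ∃ a b, CoreCell D a b e ∧ LabFrom a w e'
  | e, true :: w, e' => ∃ a b, CoreCell D a b e ∧ LabFrom b w e'

lemma LabFrom.unique {e e' e'' : CoreEdge D} {w : List Bool} (h : LabFrom e w e')
    (h' : LabFrom e w e'') : e' = e'' := by
  induction w generalizing e with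
  | nil => exact (Eq.symm h).trans h'
  | cons b w ih =>
    cases b with
    | false =>
      obtain ⟨a, b, hc, h1⟩ := h
      obtain ⟨a', b', hc', h2⟩ := h'
      rw [← hc.fst_unique hc'] at h2
      exact ih h1 h2
    | true =>
      obtain ⟨a, b, hc, h1⟩ := h
      obtain ⟨a', b', hc', h2⟩ := h'
      rw [← hc.snd_unique hc'] at h2
      exact ih h1 h2

lemma labFrom_append {e e'' : CoreEdge D} {w u : List Bool} :
    LabFrom e (w ++ u) e'' ↔ ∃ e', LabFrom e w e' ∧ LabFrom e' u e'' := by
  induction w generalizing e with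
  | nil => simp [LabFrom]
  | cons b w ih =>
    cases b with
    | false =>
      simp only [List.cons_append, LabFrom, ih]
      constructor
      · rintro ⟨a, b, hc, e', h1, h2⟩
        exact ⟨e', ⟨a, b, hc, h1⟩, h2⟩
      · rintro ⟨e', ⟨a, b, hc, h1⟩, h2⟩
        exact ⟨a, b, hc, e', h1, h2⟩
    | true =>
      simp only [List.cons_append, LabFrom, ih]
      constructor
      · rintro ⟨a, b, hc, e', h1, h2⟩
        exact ⟨e', ⟨a, b, hc, h1⟩, h2⟩
      · rintro ⟨e', ⟨a, b, hc, h1⟩, h2⟩
        exact ⟨a, b, hc, e', h1, h2⟩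

lemma LabFrom.splits {e e' : CoreEdge D} {b : Bool} {u : List Bool}
    (h : LabFrom e (b :: u) e') : Splits e := by
  cases b with
  | false => obtain ⟨a, b, hc, -⟩ := h; exact ⟨a, b, hc⟩
  | true => obtain ⟨a, b, hc, -⟩ := h; exact ⟨a, b, hc⟩

lemma LabFrom.snoc_false {e e' a b : CoreEdge D} {w : List Bool} (h : LabFrom e w e')
    (hc : CoreCell D a b e') : LabFrom e (w ++ [false]) a :=
  labFrom_append.2 ⟨e', h, a, b, hc, rfl⟩

lemma LabFrom.snoc_true {e e' a b : CoreEdge D} {w : List Bool} (h : LabFrom e w e')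
    (hc : CoreCell D a b e') : LabFrom e (w ++ [true]) b :=
  labFrom_append.2 ⟨e', h, a, b, hc, rfl⟩

/-- A chain of labelled words from `x` to `y`. -/
def Chain : List (List Bool × CoreEdge D) → ℝ → ℝ → Prop
  | [], x, y => x = y
  | i :: L, x, y => LabFrom (rho D) i.1 i.2 ∧ lo i.1 = x ∧ Chain L (lo i.1 + len i.1) y

/-- The value of a chain. -/
def val (L : List (List Bool × CoreEdge D)) : WithOne (CoreSemigroup D) :=
  (L.map fun i => (cls i.2 : WithOne (CoreSemigroup D))).prod

lemma Chain.append {L L' : List (List Bool × CoreEdge D)} {x y z : ℝ} (h : Chain L x y)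
    (h' : Chain L' y z) : Chain (L ++ L') x z := by
  induction L generalizing x with
  | nil =>
    have hxy : x = y := h
    rw [hxy]; exact h'
  | cons i L ih => exact ⟨h.1, h.2.1, ih h.2.2⟩

lemma Chain.split {L L' : List (List Bool × CoreEdge D)} {x z : ℝ} (h : Chain (L ++ L') x z) :
    ∃ y, Chain L x y ∧ Chain L' y z := by
  induction L generalizing x with
  | nil => exact ⟨x, rfl, h⟩
  | cons i L ih =>
    obtain ⟨h1, h2, h3⟩ := h
    obtain ⟨y, hy, hy'⟩ := ih h3
    exact ⟨y, ⟨h1, h2, hy⟩, hy'⟩

lemma Chain.end_unique {L : List (List Bool × CoreEdge D)} {x y y' : ℝ} (h : Chain L x y)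
    (h' : Chain L x y') : y = y' := by
  induction L generalizing x with
  | nil => exact (Eq.symm h).trans h'
  | cons i L ih => exact ih h.2.2 h'.2.2

lemma Chain.le {L : List (List Bool × CoreEdge D)} {x y : ℝ} (h : Chain L x y) : x ≤ y := by
  induction L generalizing x with
  | nil => exact le_of_eq h
  | cons i L ih =>
    have := ih h.2.2
    have := len_pos i.1
    have := h.2.1
    linarith

lemma Chain.lt_cons {i} {L : List (List Bool × CoreEdge D)} {x y : ℝ} (h : Chain (i :: L) x y) :
    x < y := by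
  have := Chain.le h.2.2
  have := len_pos i.1
  have := h.2.1
  linarith

lemma val_append (L L' : List (List Bool × CoreEdge D)) : val (L ++ L') = val L * val L' := by
  simp [val]

lemma val_single (i : List Bool × CoreEdge D) : val [i] = (cls i.2 : WithOne (CoreSemigroup D)) := by
  simp [val]

lemma val_cons (i : List Bool × CoreEdge D) (L) :
    val (i :: L) = (cls i.2 : WithOne (CoreSemigroup D)) * val L := by
  simp [val]

lemma Chain.single {w : List Bool} {e : CoreEdge D} (h : LabFrom (rho D) w e) :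
    Chain [(w, e)] (lo w) (lo w + len w) := ⟨h, rfl, rfl⟩

/-- Items that are maximal of depth `N`. -/
def Fine (N : ℕ) (i : List Bool × CoreEdge D) : Prop :=
  i.1.length = N ∨ (i.1.length ≤ N ∧ ¬ Splits i.2)

lemma lo_snoc_false (w : List Bool) : lo (w ++ [false]) = lo w := by
  rw [lo_append, lo_cons]; simp

lemma lo_snoc_true (w : List Bool) : lo (w ++ [true]) = lo w + len w / 2 := by
  rw [lo_append, lo_cons]; simp; ring

lemma len_snoc (w : List Bool) (b : Bool) : len (w ++ [b]) = len w / 2 := by
  rw [len_append, len_cons]; simp; ring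

lemma exists_fine {N : ℕ} : ∀ {w : List Bool} {e : CoreEdge D}, LabFrom (rho D) w e →
    w.length ≤ N → ∃ L, Chain L (lo w) (lo w + len w) ∧ (∀ i ∈ L, Fine N i) ∧
      val L = (cls e : WithOne (CoreSemigroup D)) := by
  intro w e h hN
  obtain ⟨k, hk⟩ := Nat.exists_eq_add_of_le hN
  induction k generalizing w e with
  | zero =>
    exact ⟨[(w, e)], Chain.single h, by intro i hi; simp at hi; subst hi; left; simpa using hk.symm,
      val_single _⟩
  | succ k ih =>
    by_cases hs : Splits e
    · obtain ⟨a, b, hc⟩ := hs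
      obtain ⟨L0, h1, h2, h3⟩ := ih (h.snoc_false hc) (by simp; omega) (by simp; omega)
      obtain ⟨L1, h1', h2', h3'⟩ := ih (h.snoc_true hc) (by simp; omega) (by simp; omega)
      refine ⟨L0 ++ L1, ?_, ?_, ?_⟩
      · rw [lo_snoc_false, len_snoc] at h1
        rw [lo_snoc_true, len_snoc, show lo w + len w / 2 + len w / 2 = lo w + len w by ring] at h1'
        exact h1.append h1'
      · intro i hi
        rcases List.mem_append.1 hi with hi | hi
        · exact h2 i hi
        · exact h2' i hi
      · rw [val_append, h3, h3', ← WithOne.coe_mul, hc.cls_mul]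
    · exact ⟨[(w, e)], Chain.single h, by intro i hi; simp at hi; subst hi; right; exact ⟨hN, hs⟩,
        val_single _⟩

lemma Fine.eq {N : ℕ} {i i' : List Bool × CoreEdge D} (h : Fine N i) (h' : Fine N i')
    (hl : LabFrom (rho D) i.1 i.2) (hl' : LabFrom (rho D) i'.1 i'.2) (heq : lo i.1 = lo i'.1) :
    i = i' := by
  have key : ∀ {i i' : List Bool × CoreEdge D}, Fine N i → Fine N i' →
      LabFrom (rho D) i.1 i.2 → LabFrom (rho D) i'.1 i'.2 → lo i.1 = lo i'.1 →
      i.1.length ≤ i'.1.length → i = i' := by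
    rintro ⟨w, e⟩ ⟨w', e'⟩ h h' hl hl' heq hle
    simp only at hl hl' heq hle
    obtain ⟨u, rfl⟩ := exists_append_of_lo_eq heq hle
    cases u with
    | nil =>
      rw [List.append_nil] at hl'
      simp [hl.unique hl']
    | cons b u =>
      obtain ⟨e'', h1, h2⟩ := labFrom_append.1 hl'
      rw [← hl.unique h1] at h2
      have hs := h2.splits
      rcases h with h | h
      · have : (w ++ b :: u).length ≤ N := by
          rcases h' with h' | h'
          · exact le_of_eq h'
          · exact h'.1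
        simp at this h
        omega
      · exact absurd hs h.2
  rcases le_total i.1.length i'.1.length with h1 | h1
  · exact key h h' hl hl' heq h1
  · exact (key h' h hl' hl heq.symm h1).symm

lemma Chain.fine_unique {N : ℕ} {L L' : List (List Bool × CoreEdge D)} {x y : ℝ}
    (h : Chain L x y) (h' : Chain L' x y) (hf : ∀ i ∈ L, Fine N i) (hf' : ∀ i ∈ L', Fine N i) :
    L = L' := by
  induction L generalizing L' x with
  | nil =>
    have hxy : x = y := h
    subst hxy
    cases L' with
    | nil => rfl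
    | cons i L' => exact absurd h'.lt_cons (lt_irrefl _)
  | cons i L ih =>
    cases L' with
    | nil =>
      have hxy : x = y := h'
      subst hxy
      exact absurd h.lt_cons (lt_irrefl _)
    | cons i' L' =>
      have e1 : i = i' := Fine.eq (hf i (by simp)) (hf' i' (by simp)) h.1 h'.1
        (h.2.1.trans h'.2.1.symm)
      subst e1
      rw [ih h.2.2 h'.2.2 (fun j hj => hf j (by simp [hj])) (fun j hj => hf' j (by simp [hj]))]

lemma Chain.refine {L : List (List Bool × CoreEdge D)} {x y : ℝ} (h : Chain L x y) :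
    ∃ N₀, ∀ N ≥ N₀, ∃ L', Chain L' x y ∧ (∀ i ∈ L', Fine N i) ∧ val L' = val L := by
  induction L generalizing x with
  | nil => exact ⟨0, fun N _ => ⟨[], h, by simp, rfl⟩⟩
  | cons i L ih =>
    obtain ⟨N₀, hN₀⟩ := ih h.2.2
    refine ⟨max N₀ i.1.length, fun N hN => ?_⟩
    obtain ⟨L', h1, h2, h3⟩ := hN₀ N (le_trans (le_max_left _ _) hN)
    obtain ⟨L'', h1', h2', h3'⟩ := exists_fine (N := N) h.1 (le_trans (le_max_right _ _) hN)
    refine ⟨L'' ++ L', ?_, ?_, ?_⟩
    · rw [← h.2.1]
      exact h1'.append h1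
    · intro j hj
      rcases List.mem_append.1 hj with hj | hj
      · exact h2' j hj
      · exact h2 j hj
    · rw [val_append, val_cons, h3, h3']

/-- The value of a chain depends only on its endpoints. -/
lemma Chain.val_unique {L L' : List (List Bool × CoreEdge D)} {x y : ℝ}
    (h : Chain L x y) (h' : Chain L' x y) : val L = val L' := by
  obtain ⟨N₁, h1⟩ := h.refine
  obtain ⟨N₂, h2⟩ := h'.refine
  obtain ⟨M, hM, hM', hM''⟩ := h1 (max N₁ N₂) (le_max_left _ _)
  obtain ⟨M', hM2, hM2', hM2''⟩ := h2 (max N₁ N₂) (le_max_right _ _)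
  rw [← hM'', ← hM2'', hM.fine_unique hM2 hM' hM2']

/-- Endpoints of the intervals of labelled words. -/
def PP (D : Set (BTree × BTree)) (x : ℝ) : Prop :=
  ∃ w e, LabFrom (rho D) w e ∧ (x = lo w ∨ x = lo w + len w)

lemma exists_fine_sides {N : ℕ} (w : List Bool) : ∀ (e : CoreEdge D), LabFrom (rho D) w e →
    w.length ≤ N → ∃ A C : List (List Bool × CoreEdge D), Chain A 0 (lo w) ∧
      Chain C (lo w + len w) 1 ∧ (∀ i ∈ A, Fine N i) ∧ ∀ i ∈ C, Fine N i := by
  induction w using List.reverseRecOn with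
  | nil =>
    intro e _ _
    exact ⟨[], [], rfl, by simp [Chain], by simp, by simp⟩
  | append_singleton w b ih =>
    intro e h hN
    rw [List.length_append, List.length_singleton] at hN
    obtain ⟨e', h1, h2⟩ := labFrom_append.1 h
    obtain ⟨A, C, hA, hC, hA', hC'⟩ := ih e' h1 (by omega)
    cases b with
    | false =>
      obtain ⟨a, b, hc, h2⟩ := h2
      obtain ⟨L, hL, hL', -⟩ := exists_fine (N := N) (h1.snoc_true hc) (by simp; omega)
      rw [lo_snoc_true, len_snoc, show lo w + len w / 2 + len w / 2 = lo w + len w by ring] at hL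
      refine ⟨A, L ++ C, ?_, ?_, hA', ?_⟩
      · rw [lo_snoc_false]; exact hA
      · rw [lo_snoc_false, len_snoc]; exact hL.append hC
      · intro j hj
        rcases List.mem_append.1 hj with hj | hj
        · exact hL' j hj
        · exact hC' j hj
    | true =>
      obtain ⟨a, b, hc, h2⟩ := h2
      obtain ⟨L, hL, hL', -⟩ := exists_fine (N := N) (h1.snoc_false hc) (by simp; omega)
      rw [lo_snoc_false, len_snoc] at hL
      refine ⟨A ++ L, C, ?_, ?_, ?_, hC'⟩
      · rw [lo_snoc_true]; exact hA.append hL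
      · rw [lo_snoc_true, len_snoc, show lo w + len w / 2 + len w / 2 = lo w + len w by ring]
        exact hC
      · intro j hj
        rcases List.mem_append.1 hj with hj | hj
        · exact hA' j hj
        · exact hL' j hj

lemma PP.exists_fine {x : ℝ} (h : PP D x) : ∃ N₀, ∀ N ≥ N₀,
    ∃ A B : List (List Bool × CoreEdge D), Chain A 0 x ∧ Chain B x 1 ∧ ∀ i ∈ A ++ B, Fine N i := by
  obtain ⟨w, e, hl, hx⟩ := h
  refine ⟨w.length, fun N hN => ?_⟩
  obtain ⟨A, C, hA, hC, hA', hC'⟩ := exists_fine_sides w e hl hN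
  obtain ⟨L, hL, hL', -⟩ := Pool.Agent.W_MP_80b09e_al.exists_fine (N := N) hl hN
  rcases hx with rfl | rfl
  · refine ⟨A, L ++ C, hA, hL.append hC, ?_⟩
    intro j hj
    rcases List.mem_append.1 hj with hj | hj
    · exact hA' j hj
    · rcases List.mem_append.1 hj with hj | hj
      · exact hL' j hj
      · exact hC' j hj
  · refine ⟨A ++ L, C, hA.append hL, hC, ?_⟩
    intro j hj
    rcases List.mem_append.1 hj with hj | hj
    · rcases List.mem_append.1 hj with hj | hj
      · exact hA' j hj
      · exact hL' j hj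
    · exact hC' j hj

lemma PP.exists_chain {x y : ℝ} (hx : PP D x) (hy : PP D y) (hxy : x < y) :
    ∃ L : List (List Bool × CoreEdge D), Chain L x y := by
  obtain ⟨N₁, h1⟩ := hx.exists_fine
  obtain ⟨N₂, h2⟩ := hy.exists_fine
  obtain ⟨A, B, hA, hB, hAB⟩ := h1 (max N₁ N₂) (le_max_left _ _)
  obtain ⟨A', B', hA', hB', hAB'⟩ := h2 (max N₁ N₂) (le_max_right _ _)
  have heq := (hA.append hB).fine_unique (hA'.append hB') hAB hAB'
  rcases List.append_eq_append_iff.1 heq with ⟨a, rfl, -⟩ | ⟨c, rfl, -⟩
  · obtain ⟨z, hz, hz'⟩ := hA'.split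
    rw [hz.end_unique hA] at hz'
    exact ⟨a, hz'⟩
  · obtain ⟨z, hz, hz'⟩ := hA.split
    rw [hz.end_unique hA'] at hz'
    exact absurd hz'.le (not_le.2 hxy)

/-- The interval from `x` to `y` has a chain with value `s`. -/
def W (D : Set (BTree × BTree)) (x y : ℝ) (s : WithOne (CoreSemigroup D)) : Prop :=
  ∃ L, Chain L x y ∧ val L = s

lemma W.trans {x y z : ℝ} {s t : WithOne (CoreSemigroup D)} (h : W D x y s) (h' : W D y z t) :
    W D x z (s * t) := by
  obtain ⟨L, hL, rfl⟩ := h
  obtain ⟨L', hL', rfl⟩ := h'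
  exact ⟨L ++ L', hL.append hL', val_append _ _⟩

lemma W.unique {x y : ℝ} {s t : WithOne (CoreSemigroup D)} (h : W D x y s) (h' : W D x y t) :
    s = t := by
  obtain ⟨L, hL, rfl⟩ := h
  obtain ⟨L', hL', rfl⟩ := h'
  exact hL.val_unique hL'

lemma W.refl (x : ℝ) : W D x x 1 := ⟨[], rfl, rfl⟩

lemma W.single {w : List Bool} {e : CoreEdge D} (h : LabFrom (rho D) w e) :
    W D (lo w) (lo w + len w) (cls e) := ⟨_, Chain.single h, val_single _⟩

/-- The hypothesis on `f` that comes from a tree pair of the generating set. -/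
def Good (D : Set (BTree × BTree)) (f : ℝ ≃o ℝ) : Prop :=
  ∃ (T : BTree) (L : List (List Bool)), List.Forall₂ (fun w w' => Maps f w w' ∧
    ∃ e, LabFrom (rho D) w e ∧ LabFrom (rho D) w' e) T.leaves L

lemma BTree.leaves_ne_nil (T : BTree) : T.leaves ≠ [] := by
  induction T with
  | leaf => simp [BTree.leaves]
  | node l r ihl ihr => simp [BTree.leaves, ihl]

lemma forall₂_append_split {α β : Type*} {R : α → β → Prop} {l l' : List α} {L : List β}
    (h : List.Forall₂ R (l ++ l') L) : ∃ L₁ L₂, List.Forall₂ R l L₁ ∧ List.Forall₂ R l' L₂ := by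
  induction l generalizing L with
  | nil => exact ⟨[], L, List.Forall₂.nil, h⟩
  | cons a l ih =>
    rw [List.cons_append, List.forall₂_cons_left_iff] at h
    obtain ⟨b, L', h1, h2, -⟩ := h
    obtain ⟨L₁, L₂, h3, h4⟩ := ih h2
    exact ⟨b :: L₁, L₂, List.Forall₂.cons h1 h3, h4⟩

lemma tree_step {f : ℝ ≃o ℝ} (T : BTree) : ∀ (v : List Bool) (e : CoreEdge D) (L : List (List Bool)),
    List.Forall₂ (fun w w' => Maps f (v ++ w) w' ∧
      ∃ e', LabFrom e w e' ∧ LabFrom (rho D) w' e') T.leaves L →
    ∀ u e', LabFrom e u e' → (W D (f (lo (v ++ u))) (f (lo (v ++ u) + len (v ++ u))) (cls e') ∧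
      (¬ Splits e' → ∃ w', Maps f (v ++ u) w' ∧ LabFrom (rho D) w' e')) := by
  induction T with
  | leaf =>
    intro v e L hL u e' hu
    simp only [BTree.leaves] at hL
    rw [List.forall₂_cons_left_iff] at hL
    obtain ⟨w', L', ⟨hm, e'', h1, h2⟩, hL', rfl⟩ := hL
    have h1' : e = e'' := h1
    subst h1'
    rw [List.append_nil] at hm
    have hm' := hm.append u
    have hlab : LabFrom (rho D) (w' ++ u) e' := labFrom_append.2 ⟨e, h2, hu⟩
    refine ⟨?_, fun _ => ⟨_, hm', hlab⟩⟩
    rw [hm'.lo, hm'.hi]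
    exact W.single hlab
  | node l r ihl ihr =>
    intro v e L hL u e' hu
    simp only [BTree.leaves] at hL
    obtain ⟨L₁, L₂, h1, h2⟩ := forall₂_append_split hL
    rw [List.forall₂_map_left_iff] at h1 h2
    -- the edge `e` is the top of a cell
    obtain ⟨a, b, hc⟩ : Splits e := by
      cases hl : l.leaves with
      | nil => exact absurd hl l.leaves_ne_nil
      | cons w ws =>
        rw [hl, List.forall₂_cons_left_iff] at h1
        obtain ⟨w', L', ⟨-, e', h3, -⟩, -⟩ := h1
        exact h3.splits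
    have h1' : List.Forall₂ (fun w w' => Maps f ((v ++ [false]) ++ w) w' ∧
        ∃ e', LabFrom a w e' ∧ LabFrom (rho D) w' e') l.leaves L₁ := by
      refine h1.imp ?_
      rintro w w' ⟨hm, e'', ⟨a', b', hc', h3⟩, h4⟩
      rw [hc'.fst_unique hc] at h3
      exact ⟨by simpa using hm, e'', h3, h4⟩
    have h2' : List.Forall₂ (fun w w' => Maps f ((v ++ [true]) ++ w) w' ∧
        ∃ e', LabFrom b w e' ∧ LabFrom (rho D) w' e') r.leaves L₂ := by
      refine h2.imp ?_
      rintro w w' ⟨hm, e'', ⟨a', b', hc', h3⟩, h4⟩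
      rw [hc'.snd_unique hc] at h3
      exact ⟨by simpa using hm, e'', h3, h4⟩
    have il := ihl _ _ _ h1'
    have ir := ihr _ _ _ h2'
    cases u with
    | nil =>
      have he : e = e' := hu
      subst he
      refine ⟨?_, fun hn => absurd ⟨a, b, hc⟩ hn⟩
      have w1 := (il [] a rfl).1
      have w2 := (ir [] b rfl).1
      rw [List.append_nil, lo_snoc_false, len_snoc] at w1
      rw [List.append_nil, lo_snoc_true, len_snoc,
        show lo v + len v / 2 + len v / 2 = lo v + len v by ring] at w2
      rw [List.append_nil, ← hc.cls_mul, WithOne.coe_mul]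
      exact w1.trans w2
    | cons c u =>
      cases c with
      | false =>
        obtain ⟨a', b', hc', h3⟩ := hu
        rw [hc'.fst_unique hc] at h3
        have := il u e' h3
        simpa using this
      | true =>
        obtain ⟨a', b', hc', h3⟩ := hu
        rw [hc'.snd_unique hc] at h3
        have := ir u e' h3
        simpa using this

lemma Good.word {f : ℝ ≃o ℝ} (hf : Good D f) {w : List Bool} {e : CoreEdge D}
    (h : LabFrom (rho D) w e) : W D (f (lo w)) (f (lo w + len w)) (cls e) ∧
      (¬ Splits e → ∃ w', Maps f w w' ∧ LabFrom (rho D) w' e) := by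
  obtain ⟨T, L, hL⟩ := hf
  have := tree_step T [] (rho D) L (by simpa using hL) w e h
  simpa using this

lemma Good.chain {f : ℝ ≃o ℝ} (hf : Good D f) {L : List (List Bool × CoreEdge D)} {x y : ℝ}
    (h : Chain L x y) : W D (f x) (f y) (val L) := by
  induction L generalizing x with
  | nil =>
    have hxy : x = y := h
    subst hxy
    exact W.refl _
  | cons i L ih =>
    rw [val_cons, ← h.2.1]
    exact (hf.word h.1).1.trans (ih h.2.2)

lemma Good.W {f : ℝ ≃o ℝ} (hf : Good D f) {x y : ℝ} {s : WithOne (CoreSemigroup D)}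
    (h : W D x y s) : Pool.Agent.W_MP_80b09e_al.W D (f x) (f y) s := by
  obtain ⟨L, hL, rfl⟩ := h
  exact hf.chain hL

lemma Good.inv {f : ℝ ≃o ℝ} {P : BTree × BTree} (h : List.Forall₂ (fun w w' => Maps f w w' ∧
    ∃ e, LabFrom (rho D) w e ∧ LabFrom (rho D) w' e) P.1.leaves P.2.leaves) :
    Good D f⁻¹ := by
  refine ⟨P.2, P.1.leaves, ?_⟩
  refine h.flip.imp ?_
  rintro w w' ⟨h1, e, h2, h3⟩
  exact ⟨h1.inv, e, h3, h2⟩

lemma Chain.ends {L : List (List Bool × CoreEdge D)} {x y : ℝ} (h : Chain L x y) (hxy : x < y) :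
    PP D x ∧ PP D y := by
  induction L generalizing x with
  | nil =>
    have : x = y := h
    exact absurd this hxy.ne
  | cons i L ih =>
    refine ⟨⟨i.1, i.2, h.1, Or.inl h.2.1.symm⟩, ?_⟩
    rcases (h.2.2.le).lt_or_eq with h1 | h1
    · exact (ih h.2.2 h1).2
    · exact ⟨i.1, i.2, h.1, Or.inr h1.symm⟩

/-- Labels of the vertices of the trees. -/
lemma BTree.isVertex_of_append {T : BTree} {w u : List Bool} (h : T.IsVertex (w ++ u)) :
    T.IsVertex w := by
  induction w generalizing T with
  | nil => cases T <;> simp [BTree.IsVertex]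
  | cons b w ih =>
    cases T with
    | leaf => simp [BTree.IsVertex] at h
    | node l r =>
      cases b with
      | false => simp only [List.cons_append, BTree.IsVertex] at h ⊢; exact ih h
      | true => simp only [List.cons_append, BTree.IsVertex] at h ⊢; exact ih h

lemma BTree.isVertex_sibling {T : BTree} {w : List Bool} {b : Bool} (h : T.IsVertex (w ++ [b]))
    (b' : Bool) : T.IsVertex (w ++ [b']) := by
  induction w generalizing T with
  | nil =>
    cases T with
    | leaf => simp [BTree.IsVertex] at h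
    | node l r => cases b' <;> simp [BTree.IsVertex]
  | cons c w ih =>
    cases T with
    | leaf => simp [BTree.IsVertex] at h
    | node l r =>
      cases c with
      | false => simp only [List.cons_append, BTree.IsVertex] at h ⊢; exact ih h
      | true => simp only [List.cons_append, BTree.IsVertex] at h ⊢; exact ih h

lemma BTree.isVertex_of_mem_leaves {T : BTree} {w : List Bool} (h : w ∈ T.leaves) :
    T.IsVertex w := by
  induction T generalizing w with
  | leaf => simp [BTree.leaves] at h; subst h; simp [BTree.IsVertex]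
  | node l r ihl ihr =>
    simp only [BTree.leaves, List.mem_append, List.mem_map] at h
    rcases h with ⟨u, hu, rfl⟩ | ⟨u, hu, rfl⟩
    · exact ihl hu
    · exact ihr hu

lemma labFrom_vertex (P : BTree × BTree) (hP : P ∈ D) (side : Bool) (u : List Bool) :
    ∀ (w : List Bool) (h : (if side then P.2 else P.1).IsVertex (w ++ u)),
      LabFrom (mkE ⟨P, hP, side, w, BTree.isVertex_of_append h⟩) u
        (mkE ⟨P, hP, side, w ++ u, h⟩) := by
  induction u with
  | nil =>
    intro w h
    simp [LabFrom]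
  | cons b u ih =>
    intro w h
    have h' : (if side then P.2 else P.1).IsVertex ((w ++ [b]) ++ u) := by simpa using h
    have hb := BTree.isVertex_of_append h'
    have h0 := BTree.isVertex_sibling hb false
    have h1 := BTree.isVertex_sibling hb true
    have hcell : CoreCell D (mkE ⟨P, hP, side, w ++ [false], h0⟩)
        (mkE ⟨P, hP, side, w ++ [true], h1⟩)
        (mkE ⟨P, hP, side, w, BTree.isVertex_of_append h⟩) :=
      ⟨⟨P, hP, side, w, BTree.isVertex_of_append h⟩, ⟨P, hP, side, w ++ [false], h0⟩,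
        ⟨P, hP, side, w ++ [true], h1⟩, ⟨rfl, rfl, rfl, rfl, rfl, rfl⟩, rfl, rfl, rfl⟩
    have := ih (w ++ [b]) h'
    cases b with
    | false => exact ⟨_, _, hcell, by simpa using this⟩
    | true => exact ⟨_, _, hcell, by simpa using this⟩

lemma labFrom_rho_vertex (P : BTree × BTree) (hP : P ∈ D) (side : Bool) (w : List Bool)
    (h : (if side then P.2 else P.1).IsVertex w) :
    LabFrom (rho D) w (mkE ⟨P, hP, side, w, h⟩) := by
  have h1 := labFrom_vertex P hP side w [] h
  have h2 : mkE (D := D) ⟨P, hP, side, [], BTree.isVertex_of_append (u := w) h⟩ = rho D :=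
    Quotient.sound (s := foldSetoid D) (Fold.root _ rfl)
  rw [h2] at h1
  exact h1

lemma represents_good {f : ℝ ≃o ℝ} {P : BTree × BTree} (hP : P ∈ D) (h : Represents f P) :
    List.Forall₂ (fun w w' => Maps f w w' ∧
      ∃ e, LabFrom (rho D) w e ∧ LabFrom (rho D) w' e) P.1.leaves P.2.leaves := by
  rw [List.forall₂_iff_get]
  have h' := h.2
  rw [List.forall₂_iff_get] at h'
  refine ⟨h'.1, fun i h1 h2 => ⟨h'.2 i h1 h2, ?_⟩⟩
  have v1 : (if false then P.2 else P.1).IsVertex (P.1.leaves.get ⟨i, h1⟩) :=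
    BTree.isVertex_of_mem_leaves (List.get_mem _ _)
  have v2 : (if true then P.2 else P.1).IsVertex (P.2.leaves.get ⟨i, h2⟩) :=
    BTree.isVertex_of_mem_leaves (List.get_mem _ _)
  refine ⟨_, labFrom_rho_vertex P hP false _ v1, ?_⟩
  have l2 := labFrom_rho_vertex P hP true _ v2
  have : mkE (D := D) ⟨P, hP, false, _, v1⟩ = mkE ⟨P, hP, true, _, v2⟩ := by
    refine Quotient.sound (s := foldSetoid D) (Fold.leaf _ _ i rfl rfl rfl ?_ ?_)
    · simp [List.getElem?_eq_getElem h1]
    · simp [List.getElem?_eq_getElem h2]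
  rw [this]
  exact l2

/-- The subgroup generated by the elements of `F` that are represented by the pairs in `D`. -/
def genGroup (D : Set (BTree × BTree)) : Subgroup (ℝ ≃o ℝ) :=
  Subgroup.closure {f | ∃ P ∈ D, Represents f P}

lemma genGroup_W {h : ℝ ≃o ℝ} (hh : h ∈ genGroup D) : ∀ {x y : ℝ} {s : WithOne (CoreSemigroup D)},
    W D x y s → W D (h x) (h y) s := by
  unfold genGroup at hh
  induction hh using Subgroup.closure_induction'' with
  | mem f hf =>
    obtain ⟨P, hP, hf⟩ := hf
    intro x y s hs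
    exact Good.W ⟨P.1, P.2.leaves, represents_good hP hf⟩ hs
  | inv_mem f hf =>
    obtain ⟨P, hP, hf⟩ := hf
    intro x y s hs
    exact (Good.inv (represents_good hP hf)).W hs
  | one => intro x y s hs; exact hs
  | mul f g _ _ ihf ihg => intro x y s hs; exact ihf (ihg hs)

lemma genGroup_affine {h : ℝ ≃o ℝ} (hh : h ∈ genGroup D) : ∀ {w : List Bool} {e : CoreEdge D},
    LabFrom (rho D) w e → ¬ Splits e → ∃ w', Maps h w w' ∧ LabFrom (rho D) w' e := by
  unfold genGroup at hh
  induction hh using Subgroup.closure_induction'' with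
  | mem f hf =>
    obtain ⟨P, hP, hf⟩ := hf
    intro w e h1 h2
    exact (Good.word ⟨P.1, P.2.leaves, represents_good hP hf⟩ h1).2 h2
  | inv_mem f hf =>
    obtain ⟨P, hP, hf⟩ := hf
    intro w e h1 h2
    exact ((Good.inv (represents_good hP hf)).word h1).2 h2
  | one => intro w e h1 h2; exact ⟨w, fun s _ => rfl, h1⟩
  | mul f g _ _ ihf ihg =>
    intro w e h1 h2
    obtain ⟨w', h3, h4⟩ := ihg h1 h2
    obtain ⟨w'', h5, h6⟩ := ihf h4 h2
    exact ⟨w'', h5.comp h3, h6⟩

lemma genGroup_PP {h : ℝ ≃o ℝ} (hh : h ∈ genGroup D) {x : ℝ} (hx : PP D x) : PP D (h x) := by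
  obtain ⟨w, e, hw, hx⟩ := hx
  obtain ⟨L, hL, -⟩ := genGroup_W hh (W.single hw)
  have hlt : h (lo w) < h (lo w + len w) := h.lt_iff_lt.2 (by have := len_pos w; linarith)
  have := hL.ends hlt
  rcases hx with rfl | rfl
  · exact this.1
  · exact this.2

/-- An idempotent from a triple. -/
lemma exists_idempotent {G h : ℝ ≃o ℝ} (hG : G ∈ genGroup D) (hh : h ∈ genGroup D) {ξ : ℝ}
    (hξ : PP D ξ) (h1 : G ξ < ξ) (h2 : h ξ = ξ) (h3 : h (G ξ) = G (G ξ)) :
    ∃ e : CoreSemigroup D, e * e = e := by
  obtain ⟨L, hL⟩ := (genGroup_PP hG hξ).exists_chain hξ h1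
  have w1 : W D (G ξ) ξ (val L) := ⟨L, hL, rfl⟩
  have w2 := genGroup_W hh w1
  rw [h3, h2] at w2
  have w3 := (genGroup_W hG w1).trans w1
  have key := w3.unique w2
  -- `val L` is in the semigroup
  cases L with
  | nil =>
    have : G ξ = ξ := hL
    exact absurd this h1.ne
  | cons i L =>
    obtain ⟨e, he⟩ : ∃ e : CoreSemigroup D, val (i :: L) = (e : WithOne (CoreSemigroup D)) := by
      rw [val_cons]
      cases hv : val L with
      | one => exact ⟨cls i.2, by simp⟩
      | coe t => exact ⟨cls i.2 * t, by rw [WithOne.coe_mul]⟩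
    rw [he, ← WithOne.coe_mul, WithOne.coe_inj] at key
    exact ⟨e, key⟩

/-- If an interval in `[0,1]` has no endpoint of a labelled word inside, then every element of the group is
affine on it. -/
lemma affine_of_no_PP {p q : ℝ} (hp : 0 ≤ p) (hq : q ≤ 1) (hpq : p < q)
    (hno : ∀ x, p < x → x < q → ¬ PP D x) {h : ℝ ≃o ℝ} (hh : h ∈ genGroup D) :
    ∃ α β : ℝ, ∀ x ∈ Icc p q, h x = α * x + β := by
  have key : ∀ n : ℕ, (∃ w e, LabFrom (rho D) w e ∧ w.length = n ∧ lo w ≤ p ∧ q ≤ lo w + len w) ∨
      ∃ w e, LabFrom (rho D) w e ∧ ¬ Splits e ∧ lo w ≤ p ∧ q ≤ lo w + len w := by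
    intro n
    induction n with
    | zero =>
      exact Or.inl ⟨[], rho D, rfl, rfl, by simpa using hp, by simpa using hq⟩
    | succ n ih =>
      rcases ih with ⟨w, e, h1, h2, h3, h4⟩ | ih
      · by_cases hs : Splits e
        · left
          obtain ⟨a, b, hc⟩ := hs
          have hm : PP D (lo w + len w / 2) :=
            ⟨_, _, h1.snoc_true hc, Or.inl (lo_snoc_true w).symm⟩
          rcases le_or_gt q (lo w + len w / 2) with h5 | h5
          · exact ⟨_, _, h1.snoc_false hc, by simp [h2], by rw [lo_snoc_false]; exact h3,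
              by rw [lo_snoc_false, len_snoc]; exact h5⟩
          · have h6 : lo w + len w / 2 ≤ p := by
              by_contra hcon
              exact hno _ (not_le.1 hcon) h5 hm
            exact ⟨_, _, h1.snoc_true hc, by simp [h2], by rw [lo_snoc_true]; exact h6,
              by rw [lo_snoc_true, len_snoc]; linarith⟩
        · exact Or.inr ⟨w, e, h1, hs, h3, h4⟩
      · exact Or.inr ih
  obtain ⟨n, hn⟩ := exists_pow_lt_of_lt_one (sub_pos.2 hpq) (show (1 / 2 : ℝ) < 1 by norm_num)
  rcases key n with ⟨w, e, h1, h2, h3, h4⟩ | ⟨w, e, h1, h2, h3, h4⟩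
  · exfalso
    have : len w = (1 / 2) ^ n := by rw [len, h2]
    linarith
  · obtain ⟨w', hm, -⟩ := genGroup_affine hh h1 h2
    have hl := len_pos w
    refine ⟨len w' / len w, lo w' - len w' / len w * lo w, fun x hx => ?_⟩
    have := hm ((x - lo w) / len w) ⟨div_nonneg (by linarith [hx.1]) hl.le, by
      rw [div_le_one hl]; linarith [hx.2]⟩
    rw [div_mul_cancel₀ _ hl.ne', show lo w + (x - lo w) = x by ring] at this
    rw [this]
    ring

end Pool.Agent.W_MP_80b09e_al
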