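import Mathlib
import Pool.Agent.W_MP_80b09e_al.Dyn

set_option autoImplicit false

open Set

namespace Pool.Agent.W_MP_80b09e_al

/-- The first common fixed point of `K₀` to the right of `p`. -/
lemma first_fixed {K₀ : Subgroup (ℝ ≃o ℝ)} {p q : ℝ} {u : ℝ ≃o ℝ} (hu : u ∈ K₀)
    (hpq : p < q) (hq : ∀ k ∈ K₀, k q = q) {c ε : ℝ} (hε : 0 < ε) (hc : c ≠ 1)
    (hlin : Lin u p c ε) :
    ∃ q₀, p < q₀ ∧ q₀ ≤ q ∧ (∀ k ∈ K₀, k q₀ = q₀) ∧
      (∀ w, p < w → (∀ k ∈ K₀, k w = w) → q₀ ≤ w) := by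
  set S : Set ℝ := {w | p < w ∧ ∀ k ∈ K₀, k w = w} with hS
  have hne : S.Nonempty := ⟨q, hpq, hq⟩
  have hlow : ∀ w ∈ S, p + ε ≤ w := by
    intro w hw
    by_contra hcon
    exact hlin.not_fixed hc hw.1 (not_le.1 hcon).le (hw.2 u hu)
  have hb : BddBelow S := ⟨p + ε, hlow⟩
  refine ⟨sInf S, ?_, csInf_le hb ⟨hpq, hq⟩, ?_, fun w h1 h2 => csInf_le hb ⟨h1, h2⟩⟩
  · have := le_csInf hne hlow
    linarith
  · intro k hk
    refine map_sInf_eq hne hb (fun x hx => ?_) (fun x hx => ?_)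
    · rw [hx.2 k hk]; exact hx
    · rw [hx.2 k⁻¹ (inv_mem hk)]; exact hx

/-- Imbalance: a subgroup and an interval on which it has no common fixed point, with an element that is trivial
near the right endpoint and not near the left one. -/
lemma imbalance {Q K₀ : Subgroup (ℝ ≃o ℝ)} {T β₁ β₂ u : ℝ ≃o ℝ} {z p q : ℝ}
    (hQF : ∀ g ∈ Q, IsF g) (hK : K₀ ≤ Q) (hT : T ∈ Q)
    (hconj : ∀ k ∈ K₀, T⁻¹ * k * T ∈ K₀)
    (hgen : ∀ x, (∀ k ∈ K₀, k x = x) → T x = x → ∀ g ∈ Q, g x = x)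
    (m : ℕ) (hcomm : ∀ k ∈ K₀, Commute ((T ^ m)⁻¹ * k * T ^ m) β₁ ∧
      Commute ((T ^ m)⁻¹ * k * T ^ m) β₂)
    (hβ₁ : IsF β₁) (hβ₂ : IsF β₂) (hz : β₁ (β₂ z) ≠ β₂ (β₁ z))
    (hp : ∀ g ∈ Q, g p = p) (hq : ∀ g ∈ Q, g q = q) (hpz : p < z) (hzq : z < q)
    (hno : ∀ x, p < x → x < q → ∃ g ∈ Q, g x ≠ x)
    (huK : u ∈ K₀) {c ε : ℝ} (hε : 0 < ε) (hc : c ≠ 1) (hu : Lin u p c ε) :
    ∃ (K : Subgroup (ℝ ≃o ℝ)) (q' η : ℝ), K ≤ Q ∧ p < q' ∧ q' ≤ q ∧ (∀ g ∈ K, g p = p) ∧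
      (∀ g ∈ K, g q' = q') ∧ (∀ x, p < x → x < q' → ∃ g ∈ K, g x ≠ x) ∧ u ∈ K ∧ 0 < η ∧
      ∀ x ∈ Icc (q' - η) q', u x = x := by
  obtain ⟨q₀, h1, h2, h3, h4⟩ := first_fixed huK (hpz.trans hzq) (fun k hk => hq k (hK hk)) hε hc hu
  have hno₀ : ∀ w, p < w → w < q₀ → ∃ k ∈ K₀, k w ≠ w := by
    intro w hw hw'
    by_contra hcon
    push Not at hcon
    exact absurd (h4 w hw hcon) (not_le.2 hw')
  have hTp : T p = p := hp T hT
  have hpow : ∀ (n : ℕ), ∀ k ∈ K₀, (T ^ n)⁻¹ * k * T ^ n ∈ K₀ := by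
    intro n
    induction n with
    | zero => intro k hk; simpa using hk
    | succ n ih =>
      intro k hk
      have := hconj _ (ih k hk)
      rw [pow_succ]
      rw [mul_inv_rev]
      simpa [mul_assoc] using this
  have hT0 : q₀ ≤ T q₀ := by
    refine h4 _ ?_ ?_
    · have := T.lt_iff_lt.2 h1
      rwa [hTp] at this
    · intro k hk
      have := h3 _ (hconj k hk)
      simp only [mulA] at this
      have := congrArg T this
      simpa using this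
  rcases hT0.eq_or_lt with heq | hlt
  · -- the fixed point cannot be common to `Q`
    exfalso
    have hQ := hgen q₀ h3 heq.symm
    have hqq : q₀ = q := by
      by_contra hcon
      obtain ⟨g, hg, hg'⟩ := hno q₀ h1 (lt_of_le_of_ne h2 hcon)
      exact hg' (hQ g hg)
    have hT1 : p < (T ^ m) z := by
      have := (T ^ m).lt_iff_lt.2 hpz
      rwa [pow_fix hTp] at this
    have hT2 : (T ^ m) z < q₀ := by
      have := (T ^ m).lt_iff_lt.2 hzq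
      rw [pow_fix (hq T hT)] at this
      rwa [hqq]
    obtain ⟨k, hk, hk'⟩ := hno₀ _ hT1 hT2
    refine hz (comm_point (α := (T ^ m)⁻¹ * k * T ^ m) (hQF _ ?_) hβ₁ hβ₂ (hcomm k hk).1
      (hcomm k hk).2 ?_)
    · exact Q.mul_mem (Q.mul_mem (Q.inv_mem (Q.pow_mem hT m)) (hK hk)) (Q.pow_mem hT m)
    · intro hcon
      apply hk'
      simp only [mulA] at hcon
      have := congrArg (T ^ m) hcon
      simpa using this
  · -- the translates of the fixed point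
    set x : ℕ → ℝ := fun n => (T ^ n) q₀ with hx
    have hmono : StrictMono x := by
      refine strictMono_nat_of_lt_succ fun n => ?_
      simp only [hx]
      rw [powA_succ]
      exact (T ^ n).lt_iff_lt.2 hlt
    have hle : ∀ n, x n ≤ q := by
      intro n
      have := (T ^ n).monotone h2
      rwa [pow_fix (hq T hT)] at this
    have hb : BddAbove (range x) := ⟨q, by rintro _ ⟨n, rfl⟩; exact hle n⟩
    have hufix : ∀ n, u (x n) = x n := by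
      intro n
      have := h3 _ (hpow n u huK)
      simp only [mulA] at this
      have := congrArg (T ^ n) this
      simpa using this
    obtain ⟨e, he, k, c', hk⟩ := (hQF u (hK huK)).left (⨆ n, x n)
    obtain ⟨n, hn⟩ := exists_lt_of_lt_ciSup (show (⨆ n, x n) - e < ⨆ n, x n by linarith)
    have hn1 := le_ciSup hb n
    have hn2 := le_ciSup hb (n + 1)
    have hlt' : x n < x (n + 1) := hmono (Nat.lt_succ_self n)
    have e1 := hk (x n) ⟨hn.le, hn1⟩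
    have e2 := hk (x (n + 1)) ⟨by linarith, hn2⟩
    rw [hufix] at e1 e2
    have e3 : ((2 : ℝ) ^ k - 1) * (x (n + 1) - x n) = 0 := by linarith
    have e4 : (2 : ℝ) ^ k = 1 := by
      rcases mul_eq_zero.1 e3 with h | h
      · linarith
      · exact absurd h (by linarith)
    rw [e4] at e1 e2
    have hc0 : c' = 0 := by linarith
    have hmemK : ∀ g, g ∈ K₀.comap (MulAut.conj (T ^ (n + 1))⁻¹).toMonoidHom ↔
        (T ^ (n + 1))⁻¹ * g * T ^ (n + 1) ∈ K₀ := by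
      intro g
      rw [Subgroup.mem_comap]
      change (T ^ (n + 1))⁻¹ * g * ((T ^ (n + 1))⁻¹)⁻¹ ∈ K₀ ↔ _
      rw [inv_inv]
    have hKQ : K₀.comap (MulAut.conj (T ^ (n + 1))⁻¹).toMonoidHom ≤ Q := by
      intro g hg
      rw [hmemK] at hg
      have := Q.mul_mem (Q.mul_mem (Q.pow_mem hT (n + 1)) (hK hg)) (Q.inv_mem (Q.pow_mem hT (n + 1)))
      simpa [mul_assoc] using this
    refine ⟨K₀.comap (MulAut.conj (T ^ (n + 1))⁻¹).toMonoidHom, x (n + 1), x (n + 1) - x n, hKQ,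
      ?_, hle _, ?_, ?_, ?_, ?_, by linarith, ?_⟩
    · have := (T ^ (n + 1)).lt_iff_lt.2 h1
      rwa [pow_fix hTp] at this
    · intro g hg
      exact hp g (hKQ hg)
    · intro g hg
      rw [hmemK] at hg
      have := h3 _ hg
      simp only [mulA] at this
      have := congrArg (T ^ (n + 1)) this
      simpa using this
    · intro w hw hw'
      have w1 : p < (T ^ (n + 1))⁻¹ w := by
        have := ((T ^ (n + 1))⁻¹).lt_iff_lt.2 hw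
        rwa [inv_fix (pow_fix hTp _)] at this
      have w2 : (T ^ (n + 1))⁻¹ w < q₀ := by
        have := ((T ^ (n + 1))⁻¹).lt_iff_lt.2 hw'
        simpa [hx] using this
      obtain ⟨k, hk, hk'⟩ := hno₀ _ w1 w2
      refine ⟨T ^ (n + 1) * k * (T ^ (n + 1))⁻¹, ?_, ?_⟩
      · rw [hmemK]
        simpa [mul_assoc] using hk
      · intro hcon
        apply hk'
        simp only [mulA] at hcon
        have := congrArg (fun y => (T ^ (n + 1))⁻¹ y) hcon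
        simpa using this
    · rw [hmemK]
      exact hpow _ _ huK
    · intro w hw
      rw [hk w ⟨by linarith [hw.1], by linarith [hw.2]⟩, e4, hc0]
      ring

/-- The supremum of an orbit. -/
lemma orbit_sup {K : Subgroup (ℝ ≃o ℝ)} {p q x : ℝ} (hq : ∀ g ∈ K, g q = q)
    (hno : ∀ x, p < x → x < q → ∃ g ∈ K, g x ≠ x) (hpx : p < x) (hxq : x < q) {η : ℝ} (hη : 0 < η) :
    ∃ g ∈ K, q - η < g x ∧ g x < q := by
  set S : Set ℝ := {y | ∃ g ∈ K, g x = y} with hS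
  have hne : S.Nonempty := ⟨x, 1, K.one_mem, rfl⟩
  have hb : BddAbove S := by
    refine ⟨q, ?_⟩
    rintro _ ⟨g, hg, rfl⟩
    have := g.monotone hxq.le
    rwa [hq g hg] at this
  have hfix : ∀ g ∈ K, g (sSup S) = sSup S := by
    intro g hg
    refine map_sSup_eq hne hb ?_ ?_
    · rintro _ ⟨h, hh, rfl⟩
      exact ⟨g * h, K.mul_mem hg hh, rfl⟩
    · rintro _ ⟨h, hh, rfl⟩
      exact ⟨g⁻¹ * h, K.mul_mem (K.inv_mem hg) hh, rfl⟩
  have h1 : x ≤ sSup S := le_csSup hb ⟨1, K.one_mem, rfl⟩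
  have h2 : sSup S = q := by
    by_contra hcon
    have hle : sSup S ≤ q := by
      refine csSup_le hne ?_
      rintro _ ⟨g, hg, rfl⟩
      have := g.monotone hxq.le
      rwa [hq g hg] at this
    obtain ⟨g, hg, hg'⟩ := hno (sSup S) (hpx.trans_le h1) (lt_of_le_of_ne hle hcon)
    exact hg' (hfix g hg)
  obtain ⟨_, ⟨g, hg, rfl⟩, hlt⟩ := exists_lt_of_lt_csSup hne (show q - η < sSup S by
    rw [h2]; linarith)
  refine ⟨g, hg, hlt, ?_⟩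
  have := g.lt_iff_lt.2 hxq
  rwa [hq g hg] at this

/-- The infimum of an orbit. -/
lemma orbit_inf {K : Subgroup (ℝ ≃o ℝ)} {p q x : ℝ} (hp : ∀ g ∈ K, g p = p)
    (hno : ∀ x, p < x → x < q → ∃ g ∈ K, g x ≠ x) (hpx : p < x) (hxq : x < q) {η : ℝ} (hη : 0 < η) :
    ∃ g ∈ K, p < g x ∧ g x < p + η := by
  set S : Set ℝ := {y | ∃ g ∈ K, g x = y} with hS
  have hne : S.Nonempty := ⟨x, 1, K.one_mem, rfl⟩
  have hb : BddBelow S := by
    refine ⟨p, ?_⟩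
    rintro _ ⟨g, hg, rfl⟩
    have := g.monotone hpx.le
    rwa [hp g hg] at this
  have hfix : ∀ g ∈ K, g (sInf S) = sInf S := by
    intro g hg
    refine map_sInf_eq hne hb ?_ ?_
    · rintro _ ⟨h, hh, rfl⟩
      exact ⟨g * h, K.mul_mem hg hh, rfl⟩
    · rintro _ ⟨h, hh, rfl⟩
      exact ⟨g⁻¹ * h, K.mul_mem (K.inv_mem hg) hh, rfl⟩
  have h1 : sInf S ≤ x := csInf_le hb ⟨1, K.one_mem, rfl⟩
  have h2 : sInf S = p := by
    by_contra hcon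
    have hle : p ≤ sInf S := by
      refine le_csInf hne ?_
      rintro _ ⟨g, hg, rfl⟩
      have := g.monotone hpx.le
      rwa [hp g hg] at this
    obtain ⟨g, hg, hg'⟩ := hno (sInf S) (lt_of_le_of_ne hle (Ne.symm hcon)) (h1.trans_lt hxq)
    exact hg' (hfix g hg)
  obtain ⟨_, ⟨g, hg, rfl⟩, hlt⟩ := exists_lt_of_csInf_lt hne (show sInf S < p + η by
    rw [h2]; linarith)
  refine ⟨g, hg, ?_, hlt⟩
  have := g.lt_iff_lt.2 hpx
  rwa [hp g hg] at this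

/-- The triple, for a contraction `v`. -/
lemma triple_aux {K : Subgroup (ℝ ≃o ℝ)} {p q η ε : ℝ} {v : ℝ ≃o ℝ} {PP : ℝ → Prop}
    (hKF : ∀ g ∈ K, IsF g) (hp : ∀ g ∈ K, g p = p) (hq : ∀ g ∈ K, g q = q)
    (hno : ∀ x, p < x → x < q → ∃ g ∈ K, g x ≠ x) (hv : v ∈ K) (hη : 0 < η)
    (hvη : ∀ x ∈ Icc (q - η) q, v x = x) (hε : 0 < ε) {τ : ℕ} (hτ : 0 < τ)
    (hlin : Lin v p ((1 / 2) ^ τ) ε) (hPP : ∀ g ∈ K, ∀ x, PP x → PP (g x)) {x₀ : ℝ} (hx₀ : PP x₀)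
    (hpx : p < x₀) (hxq : x₀ < q) :
    ∃ (ξ : ℝ) (G h : ℝ ≃o ℝ), G ∈ K ∧ h ∈ K ∧ PP ξ ∧ p < ξ ∧ ξ < q ∧ G ξ < ξ ∧ h ξ = ξ ∧
      h (G ξ) = G (G ξ) := by
  obtain ⟨g₁, hg₁, h1, h2⟩ := orbit_sup hq hno hpx hxq hη
  set ξ := g₁ x₀ with hξ
  have hpξ : p < ξ := by
    have := g₁.lt_iff_lt.2 hpx
    rwa [hp g₁ hg₁] at this
  obtain ⟨g₀, hg₀, h3, h4⟩ := orbit_inf hp hno hpξ h2 hε
  obtain ⟨r, δ, hδ, hlin₀⟩ := (hKF g₀ hg₀).lin (hp g₀ hg₀)
  have cr : (0 : ℝ) < 2 ^ r := by positivity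
  obtain ⟨δ', hδ', hd1, hd2, hd3⟩ : ∃ δ' : ℝ, 0 < δ' ∧ δ' ≤ δ ∧ δ' ≤ ε ∧ 2 ^ r * δ' ≤ ε := by
    refine ⟨min (min δ ε) (ε / 2 ^ r), ?_, ?_, ?_, ?_⟩
    · exact lt_min (lt_min hδ hε) (by positivity)
    · exact (min_le_left _ _).trans (min_le_left _ _)
    · exact (min_le_left _ _).trans (min_le_right _ _)
    · have : min (min δ ε) (ε / 2 ^ r) ≤ ε / 2 ^ r := min_le_right _ _
      rw [le_div_iff₀ cr] at this
      linarith
  -- choose `n`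
  have c1 : ((1 : ℝ) / 2) ^ τ < 1 := pow_lt_one₀ (by norm_num) (by norm_num) hτ.ne'
  have c0 : (0 : ℝ) < (1 / 2) ^ τ := by positivity
  have htend : Filter.Tendsto (fun n : ℕ => (((1 : ℝ) / 2) ^ τ) ^ n * (g₀ ξ - p)) Filter.atTop
      (nhds 0) := by
    have := (tendsto_pow_atTop_nhds_zero_of_lt_one c0.le c1).mul_const (g₀ ξ - p)
    simpa using this
  have hev := (htend.eventually (gt_mem_nhds (show (0 : ℝ) < min δ' (ξ - p) from
    lt_min hδ' (by linarith)))).and (Filter.eventually_gt_atTop (r.toNat))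
  obtain ⟨n, hn, hnr⟩ := hev.exists
  -- the exponent
  obtain ⟨σ, hσ, hσ'⟩ : ∃ σ : ℕ, 0 < σ ∧ (((1 : ℝ) / 2) ^ τ) ^ n * 2 ^ r = (1 / 2) ^ σ := by
    have hge : r < (τ : ℤ) * n := by
      have e1 : r ≤ r.toNat := Int.self_le_toNat r
      have e2 : (r.toNat : ℤ) < n := by exact_mod_cast hnr
      have e3 : (n : ℤ) ≤ τ * n := by
        have : (1 : ℤ) ≤ τ := by exact_mod_cast hτ
        nlinarith
      omega
    refine ⟨((τ : ℤ) * n - r).toNat, by omega, ?_⟩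
    have e4 : ((((τ : ℤ) * n - r).toNat : ℕ) : ℤ) = (τ : ℤ) * n - r := Int.toNat_of_nonneg (by omega)
    rw [← pow_mul, one_div, inv_pow, inv_pow, ← zpow_natCast, ← zpow_natCast, e4, ← zpow_neg,
      ← zpow_neg, ← zpow_add₀ (by norm_num)]
    congr 1
    push_cast
    ring
  set s : ℝ ≃o ℝ := v ^ n * g₀ with hs
  have hsK : s ∈ K := K.mul_mem (K.pow_mem hv n) hg₀
  have hslin : Lin s p ((1 / 2) ^ σ) δ' := by
    rw [← hσ']
    exact (hlin.pow c0.le c1.le hε.le n).mul (hlin₀.mono hd1) cr.le hd3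
  have hsξ : s ξ = p + (((1 : ℝ) / 2) ^ τ) ^ n * (g₀ ξ - p) := by
    rw [hs, mulA, hlin.pow c0.le c1.le hε.le n _ ⟨h3.le, h4.le⟩]
  have hsp : p < s ξ := by
    rw [hsξ]
    have : 0 < (((1 : ℝ) / 2) ^ τ) ^ n * (g₀ ξ - p) := mul_pos (pow_pos c0 n) (by linarith)
    linarith
  have hsδ : s ξ < p + δ' := by
    rw [hsξ]
    have := lt_of_lt_of_le hn (min_le_left _ _)
    linarith
  have hslt : s ξ < ξ := by
    rw [hsξ]
    have := lt_of_lt_of_le hn (min_le_right _ _)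
    linarith
  have d1 : ((1 : ℝ) / 2) ^ σ < 1 := pow_lt_one₀ (by norm_num) (by norm_num) hσ.ne'
  have d0 : (0 : ℝ) < (1 / 2) ^ σ := by positivity
  obtain ⟨τ', rfl⟩ : ∃ τ', τ = τ' + 1 := ⟨τ - 1, by omega⟩
  have hG : (s ^ (τ' + 1)) ξ = p + (((1 : ℝ) / 2) ^ σ) ^ τ' * (s ξ - p) := by
    rw [powA_succ, hslin.pow d0.le d1.le hδ'.le τ' _ ⟨hsp.le, hsδ.le⟩]
  have hpw : (((1 : ℝ) / 2) ^ σ) ^ τ' ≤ 1 := pow_le_one₀ d0.le d1.le
  have hpw0 : (0 : ℝ) < (((1 : ℝ) / 2) ^ σ) ^ τ' := pow_pos d0 _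
  have hG1 : (s ^ (τ' + 1)) ξ ≤ s ξ := by
    rw [hG]
    nlinarith
  have hG2 : p < (s ^ (τ' + 1)) ξ := by
    rw [hG]
    have : 0 < (((1 : ℝ) / 2) ^ σ) ^ τ' * (s ξ - p) := mul_pos hpw0 (by linarith)
    linarith
  refine ⟨ξ, s ^ (τ' + 1), v ^ σ, K.pow_mem hsK _, K.pow_mem hv _, hPP g₁ hg₁ x₀ hx₀, hpξ, h2,
    hG1.trans_lt hslt, pow_fix (hvη ξ ⟨h1.le, h2.le⟩) σ, ?_⟩
  rw [hlin.pow c0.le c1.le hε.le σ _ ⟨hG2.le, by linarith⟩,
    hslin.pow d0.le d1.le hδ'.le (τ' + 1) _ ⟨hG2.le, by linarith⟩]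
  rw [← pow_mul, ← pow_mul, mul_comm σ (τ' + 1)]

lemma triple {K : Subgroup (ℝ ≃o ℝ)} {p q η ε : ℝ} {v : ℝ ≃o ℝ} {PP : ℝ → Prop}
    (hKF : ∀ g ∈ K, IsF g) (hp : ∀ g ∈ K, g p = p) (hq : ∀ g ∈ K, g q = q)
    (hno : ∀ x, p < x → x < q → ∃ g ∈ K, g x ≠ x) (hv : v ∈ K) (hη : 0 < η)
    (hvη : ∀ x ∈ Icc (q - η) q, v x = x) (hε : 0 < ε) {k : ℤ} (hk : k ≠ 0)
    (hlin : Lin v p (2 ^ k) ε) (hPP : ∀ g ∈ K, ∀ x, PP x → PP (g x)) {x₀ : ℝ} (hx₀ : PP x₀)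
    (hpx : p < x₀) (hxq : x₀ < q) :
    ∃ (ξ : ℝ) (G h : ℝ ≃o ℝ), G ∈ K ∧ h ∈ K ∧ PP ξ ∧ p < ξ ∧ ξ < q ∧ G ξ < ξ ∧ h ξ = ξ ∧
      h (G ξ) = G (G ξ) := by
  rcases lt_or_gt_of_ne hk with h | h
  · obtain ⟨τ, hτ⟩ : ∃ τ : ℕ, k = -(τ : ℤ) := ⟨(-k).toNat, by omega⟩
    refine triple_aux hKF hp hq hno hv hη hvη hε (τ := τ) (by omega) ?_ hPP hx₀ hpx hxq
    have : ((1 : ℝ) / 2) ^ τ = 2 ^ k := by
      rw [hτ, zpow_neg, zpow_natCast, one_div, inv_pow]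
    rw [this]
    exact hlin
  · obtain ⟨τ, hτ⟩ : ∃ τ : ℕ, k = (τ : ℤ) := ⟨k.toNat, by omega⟩
    have c0 : (0 : ℝ) < 2 ^ k := by positivity
    refine triple_aux hKF hp hq hno (K.inv_mem hv) hη (fun x hx => inv_fix (hvη x hx))
      (show 0 < 2 ^ k * ε by positivity) (τ := τ) (by omega) ?_ hPP hx₀ hpx hxq
    intro z hz
    have h1 : p ≤ p + (z - p) / 2 ^ k := by
      have : 0 ≤ (z - p) / 2 ^ k := div_nonneg (by linarith [hz.1]) c0.le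
      linarith
    have h2 : p + (z - p) / 2 ^ k ≤ p + ε := by
      have : (z - p) / 2 ^ k ≤ ε := by
        rw [div_le_iff₀ c0]
        linarith [hz.2]
      linarith
    have h3 := hlin _ ⟨h1, h2⟩
    have h4 : p + 2 ^ k * (p + (z - p) / 2 ^ k - p) = z := by
      field_simp
      ring
    rw [h4] at h3
    have h5 := congrArg (fun y => v⁻¹ y) h3
    simp only [invA] at h5
    rw [← h5, hτ, zpow_natCast, one_div, inv_pow]
    ring

end Pool.Agent.W_MP_80b09e_al
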