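import Mathlib
import Pool.Agent.W_MP_80b09e_al.Core
import Pool.Agent.W_MP_80b09e_al.Dyn2
import Pool.Agent.W_MP_80b09e_al.Bump

set_option autoImplicit false

open Set

namespace Pool.Agent.W_MP_80b09e_al

lemma genGroup_le (D : Set (BTree × BTree)) : genGroup D ≤ thompsonF := by
  unfold genGroup
  rw [Subgroup.closure_le]
  rintro f ⟨P, -, hf⟩
  exact hf.1

lemma isDyadic_eighth (m : ℤ) : IsDyadic ((m : ℝ) / 8) := ⟨m, 3, by norm_num⟩

noncomputable def bA : thompsonF := ⟨bump 0 (3 / 4), bump_isF (by simpa using isDyadic_eighth 0)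
  (by convert isDyadic_eighth 6 using 1; norm_num) (by norm_num) (by norm_num) (by norm_num)⟩

noncomputable def bB : thompsonF := ⟨bump (1 / 4) 1, bump_isF
  (by convert isDyadic_eighth 2 using 1; norm_num)
  (by convert isDyadic_eighth 8 using 1; norm_num) (by norm_num) (by norm_num) (by norm_num)⟩

noncomputable def bC : thompsonF := ⟨bump (1 / 8) (1 / 2), bump_isF
  (by convert isDyadic_eighth 1 using 1; norm_num)
  (by convert isDyadic_eighth 4 using 1; norm_num) (by norm_num) (by norm_num) (by norm_num)⟩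

noncomputable def bD : thompsonF := ⟨bump (1 / 4) (3 / 4), bump_isF
  (by convert isDyadic_eighth 2 using 1; norm_num)
  (by convert isDyadic_eighth 6 using 1; norm_num) (by norm_num) (by norm_num) (by norm_num)⟩

lemma bA_apply (z : ℝ) : (bA : ℝ ≃o ℝ) z = bumpFun 0 (3 / 4) z := rfl
lemma bB_apply (z : ℝ) : (bB : ℝ ≃o ℝ) z = bumpFun (1 / 4) 1 z := rfl
lemma bC_apply (z : ℝ) : (bC : ℝ ≃o ℝ) z = bumpFun (1 / 8) (1 / 2) z := rfl
lemma bD_apply (z : ℝ) : (bD : ℝ ≃o ℝ) z = bumpFun (1 / 4) (3 / 4) z := rfl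

lemma bC_bD_ne : bC * bD ≠ bD * bC := by
  intro h
  have h1 := congrArg (fun f : thompsonF => (f : ℝ ≃o ℝ) (1 / 4)) h
  simp only [Subgroup.coe_mul, mulA, bC_apply, bD_apply] at h1
  rw [bumpFun_of_le (c := 1 / 4) (d := 3 / 4) (z := 1 / 4) le_rfl,
    bumpFun_two (c := 1 / 8) (d := 1 / 2) (by norm_num) (by norm_num) (by norm_num)] at h1
  have := lt_bumpFun (c := 1 / 4) (d := 3 / 4) (z := 1 / 4 + (1 / 2 - 1 / 8) / 4) (by norm_num)
    (by norm_num)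
  linarith

noncomputable def tt : thompsonF := bA * bB

lemma tt_apply (z : ℝ) : (tt : ℝ ≃o ℝ) z = bumpFun 0 (3 / 4) (bumpFun (1 / 4) 1 z) := rfl

lemma le_tt (z : ℝ) : z ≤ (tt : ℝ ≃o ℝ) z := by
  rw [tt_apply]
  exact (le_bumpFun _ _ _).trans (le_bumpFun _ _ _)

lemma lt_tt {z : ℝ} (h0 : 0 < z) (h1 : z < 1) : z < (tt : ℝ ≃o ℝ) z := by
  rw [tt_apply]
  rcases le_or_gt z (1 / 4) with h | h
  · rw [bumpFun_of_le h]
    exact lt_bumpFun h0 (by linarith)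
  · exact (lt_bumpFun h h1).trans_le (le_bumpFun _ _ _)

lemma tt_zero : (tt : ℝ ≃o ℝ) 0 = 0 := by
  rw [tt_apply, bumpFun_of_le (c := 1 / 4) (d := 1) (z := 0) (by norm_num),
    bumpFun_of_le (c := 0) (d := 3 / 4) (z := 0) le_rfl]

lemma ttinv_le (z : ℝ) : (tt : ℝ ≃o ℝ)⁻¹ z ≤ z := by
  have := (tt : ℝ ≃o ℝ)⁻¹.monotone (le_tt z)
  simpa using this

/-- A power of `tt` that moves `1/8` past `3/4`. -/
lemma exists_power : ∃ m : ℕ, (3 : ℝ) / 4 ≤ ((tt : ℝ ≃o ℝ) ^ m) (1 / 8) ∧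
    (((tt : ℝ ≃o ℝ)⁻¹) ^ m) (3 / 4) ≤ 1 / 8 := by
  have hlt : ∀ z : ℝ, 0 < z → z < 1 → (tt : ℝ ≃o ℝ)⁻¹ z < z := by
    intro z h0 h1
    have := (tt : ℝ ≃o ℝ)⁻¹.strictMono (lt_tt h0 h1)
    simpa using this
  obtain ⟨m, hm⟩ := iterates_approach (α := (tt : ℝ ≃o ℝ)⁻¹) (p := 0) (ξ := 3 / 4) (δ := 1 / 8)
    (inv_fix tt_zero) (by norm_num) (by norm_num)
    (fun z h0 h1 => (hlt z h0 (by linarith)).ne) (hlt _ (by norm_num) (by norm_num))
  refine ⟨m, ?_, by linarith⟩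
  have h2 := ((tt : ℝ ≃o ℝ) ^ m).monotone hm.le
  rw [inv_pow, invA'] at h2
  simpa using h2

/-- The source group. -/
noncomputable def Gam : Subgroup thompsonF := Subgroup.closure {bA, bB, bC, bD}

lemma bA_mem : bA ∈ Gam := Subgroup.subset_closure (by simp)
lemma bB_mem : bB ∈ Gam := Subgroup.subset_closure (by simp)
lemma bC_mem : bC ∈ Gam := Subgroup.subset_closure (by simp)
lemma bD_mem : bD ∈ Gam := Subgroup.subset_closure (by simp)
lemma tt_mem : tt ∈ Gam := Gam.mul_mem bA_mem bB_mem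

/-- Elements of `Gam` that are trivial on the set `I`. -/
noncomputable def Del (I : Set ℝ) : Subgroup thompsonF where
  carrier := {g | g ∈ Gam ∧ ∀ x ∈ I, (g : ℝ ≃o ℝ) x = x}
  one_mem' := ⟨Gam.one_mem, fun x _ => rfl⟩
  mul_mem' := by
    rintro f g ⟨hf, hf'⟩ ⟨hg, hg'⟩
    refine ⟨Gam.mul_mem hf hg, fun x hx => ?_⟩
    rw [Subgroup.coe_mul, mulA, hg' x hx, hf' x hx]
  inv_mem' := by
    rintro f ⟨hf, hf'⟩
    refine ⟨Gam.inv_mem hf, fun x hx => ?_⟩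
    rw [Subgroup.coe_inv]
    exact inv_fix (hf' x hx)

lemma main {D : Set (BTree × BTree)} (ψ : thompsonF →* (ℝ ≃o ℝ)) (hψ : Function.Injective ψ)
    (hrange : ∀ x, ψ x ∈ genGroup D) : ∃ e : CoreSemigroup D, e * e = e := by
  classical
  have hF : ∀ x, IsF (ψ x) := fun x => genGroup_le D (hrange x)
  -- the image group
  set Q : Subgroup (ℝ ≃o ℝ) := Gam.map ψ with hQ
  have hQF : ∀ g ∈ Q, IsF g := by
    rintro _ ⟨g, -, rfl⟩
    exact hF g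
  have hQgen : ∀ g ∈ Q, g ∈ genGroup D := by
    rintro _ ⟨g, -, rfl⟩
    exact hrange g
  have hψQ : ∀ g ∈ Gam, ψ g ∈ Q := fun g hg => ⟨g, hg, rfl⟩
  have hQfix : ∀ x, ψ bA x = x → ψ bB x = x → ψ bC x = x → ψ bD x = x → ∀ g ∈ Q, g x = x := by
    intro x hA hB hC hD
    rintro _ ⟨g, hg, rfl⟩
    have hg' : g ∈ Subgroup.closure {bA, bB, bC, bD} := hg
    induction hg' using Subgroup.closure_induction with
    | mem y hy =>
      simp only [mem_insert_iff, mem_singleton_iff] at hy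
      rcases hy with rfl | rfl | rfl | rfl
      · exact hA
      · exact hB
      · exact hC
      · exact hD
    | one => simp
    | mul y z hy hz ihy ihz =>
      have := ihz hz
      have h2 := ihy hy
      simp only [map_mul, mulA] at this h2 ⊢
      rw [this, h2]
    | inv y hy ihy =>
      have := ihy hy
      rw [map_inv]
      exact inv_fix this
  -- the point `z`
  obtain ⟨z, hz⟩ : ∃ z, ψ bC (ψ bD z) ≠ ψ bD (ψ bC z) := by
    by_contra hcon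
    push Not at hcon
    apply bC_bD_ne
    apply hψ
    rw [map_mul, map_mul]
    exact DFunLike.ext _ _ hcon
  obtain ⟨g₀, hg₀, hg₀z⟩ : ∃ g ∈ Q, g z ≠ z := by
    by_contra hcon
    push Not at hcon
    rw [hcon _ (hψQ _ bD_mem), hcon _ (hψQ _ bC_mem), hcon _ (hψQ _ bD_mem)] at hz
    exact hz rfl
  have hz01 := (hQF g₀ hg₀).moved hg₀z
  -- the orbit
  set S : Set ℝ := {y | ∃ g ∈ Q, g z = y} with hS
  have hne : S.Nonempty := ⟨z, 1, Q.one_mem, rfl⟩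
  have hS01 : ∀ y ∈ S, y ∈ Icc (0 : ℝ) 1 := by
    rintro _ ⟨g, hg, rfl⟩
    exact (hQF g hg).mem01 ⟨hz01.1.le, hz01.2.le⟩
  have hbb : BddBelow S := ⟨0, fun y hy => (hS01 y hy).1⟩
  have hba : BddAbove S := ⟨1, fun y hy => (hS01 y hy).2⟩
  have hinv1 : ∀ g ∈ Q, ∀ x ∈ S, g x ∈ S := by
    rintro g hg _ ⟨h, hh, rfl⟩
    exact ⟨g * h, Q.mul_mem hg hh, rfl⟩
  have hinv2 : ∀ g ∈ Q, ∀ x ∈ S, g⁻¹ x ∈ S := by
    rintro g hg _ ⟨h, hh, rfl⟩
    exact ⟨g⁻¹ * h, Q.mul_mem (Q.inv_mem hg) hh, rfl⟩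
  have hp : ∀ g ∈ Q, g (sInf S) = sInf S := fun g hg =>
    map_sInf_eq hne hbb (hinv1 g hg) (hinv2 g hg)
  have hq : ∀ g ∈ Q, g (sSup S) = sSup S := fun g hg =>
    map_sSup_eq hne hba (hinv1 g hg) (hinv2 g hg)
  have hpz' : ∀ y ∈ S, sInf S ≤ y := fun y hy => csInf_le hbb hy
  have hzq' : ∀ y ∈ S, y ≤ sSup S := fun y hy => le_csSup hba hy
  have hp0 : 0 ≤ sInf S := le_csInf hne fun y hy => (hS01 y hy).1
  have hq1 : sSup S ≤ 1 := csSup_le hne fun y hy => (hS01 y hy).2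
  have hno : ∀ x, sInf S < x → x < sSup S → ∃ g ∈ Q, g x ≠ x := by
    intro x hx1 hx2
    by_contra hcon
    push Not at hcon
    rcases le_total x z with h | h
    · have : x ≤ sInf S := by
        refine le_csInf hne ?_
        rintro _ ⟨g, hg, rfl⟩
        have := g.monotone h
        rwa [hcon g hg] at this
      linarith
    · have : sSup S ≤ x := by
        refine csSup_le hne ?_
        rintro _ ⟨g, hg, rfl⟩
        have := g.monotone h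
        rwa [hcon g hg] at this
      linarith
  have hzS : z ∈ S := ⟨1, Q.one_mem, rfl⟩
  have hgS : g₀ z ∈ S := ⟨g₀, hg₀, rfl⟩
  have hgS' : g₀⁻¹ z ∈ S := ⟨g₀⁻¹, Q.inv_mem hg₀, rfl⟩
  have hpz : sInf S < z ∧ z < sSup S := by
    rcases lt_or_gt_of_ne hg₀z with h | h
    · refine ⟨(hpz' _ hgS).trans_lt h, ?_⟩
      have := g₀⁻¹.lt_iff_lt.2 h
      rw [invA] at this
      exact this.trans_le (hzq' _ hgS')
    · refine ⟨?_, h.trans_le (hzq' _ hgS)⟩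
      have := g₀⁻¹.lt_iff_lt.2 h
      rw [invA] at this
      exact (hpz' _ hgS').trans_lt this
  set p := sInf S with hpdef
  set q := sSup S with hqdef
  obtain ⟨hpz, hzq⟩ := hpz
  -- the germs at `p`
  obtain ⟨kA, δA, hδA, hlA⟩ := (hF bA).lin (hp _ (hψQ _ bA_mem))
  obtain ⟨kB, δB, hδB, hlB⟩ := (hF bB).lin (hp _ (hψQ _ bB_mem))
  obtain ⟨kC, δC, hδC, hlC⟩ := (hF bC).lin (hp _ (hψQ _ bC_mem))
  obtain ⟨kD, δD, hδD, hlD⟩ := (hF bD).lin (hp _ (hψQ _ bD_mem))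
  have hsome : kA ≠ 0 ∨ kB ≠ 0 ∨ kC ≠ 0 ∨ kD ≠ 0 := by
    by_contra hcon
    push Not at hcon
    obtain ⟨rfl, rfl, rfl, rfl⟩ := hcon
    obtain ⟨δ, h0, h1, h2, h3, h4, h5⟩ : ∃ δ : ℝ, 0 < δ ∧ δ ≤ δA ∧ δ ≤ δB ∧ δ ≤ δC ∧ δ ≤ δD ∧
        δ ≤ (q - p) / 2 := by
      refine ⟨min (min (min δA δB) (min δC δD)) ((q - p) / 2), ?_, ?_, ?_, ?_, ?_, ?_⟩
      · exact lt_min (lt_min (lt_min hδA hδB) (lt_min hδC hδD)) (by linarith)
      · exact (min_le_left _ _).trans ((min_le_left _ _).trans (min_le_left _ _))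
      · exact (min_le_left _ _).trans ((min_le_left _ _).trans (min_le_right _ _))
      · exact (min_le_left _ _).trans ((min_le_right _ _).trans (min_le_left _ _))
      · exact (min_le_left _ _).trans ((min_le_right _ _).trans (min_le_right _ _))
      · exact min_le_right _ _
    obtain ⟨g, hg, hg'⟩ := hno (p + δ) (by linarith) (by linarith)
    apply hg'
    refine hQfix (p + δ) ?_ ?_ ?_ ?_ g hg
    · rw [hlA _ ⟨by linarith, by linarith⟩]; simp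
    · rw [hlB _ ⟨by linarith, by linarith⟩]; simp
    · rw [hlC _ ⟨by linarith, by linarith⟩]; simp
    · rw [hlD _ ⟨by linarith, by linarith⟩]; simp
  -- conclusion from the imbalance
  have hfinish : ∀ (u : ℝ ≃o ℝ) (k : ℤ) (ε : ℝ), 0 < ε → k ≠ 0 → Lin u p (2 ^ k) ε →
      (∃ (K : Subgroup (ℝ ≃o ℝ)) (q' η : ℝ), K ≤ Q ∧ p < q' ∧ q' ≤ q ∧ (∀ g ∈ K, g p = p) ∧
        (∀ g ∈ K, g q' = q') ∧ (∀ x, p < x → x < q' → ∃ g ∈ K, g x ≠ x) ∧ u ∈ K ∧ 0 < η ∧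
        ∀ x ∈ Icc (q' - η) q', u x = x) → ∃ e : CoreSemigroup D, e * e = e := by
    rintro u k ε hε hk hlin ⟨K, q', η, hKQ, hpq', hq'q, hKp, hKq, hKno, huK, hη, huη⟩
    by_cases hPP : ∃ x, p < x ∧ x < q' ∧ PP D x
    · obtain ⟨x₀, hx1, hx2, hx3⟩ := hPP
      obtain ⟨ξ, G, h, hG, hh, hξ, -, -, h1, h2, h3⟩ := triple (PP := PP D)
        (fun g hg => hQF g (hKQ hg)) hKp hKq hKno huK hη huη hε hk hlin
        (fun g hg x hx => genGroup_PP (hQgen g (hKQ hg)) hx) hx3 hx1 hx2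
      exact exists_idempotent (hQgen G (hKQ hG)) (hQgen h (hKQ hh)) hξ h1 h2 h3
    · exfalso
      push Not at hPP
      obtain ⟨α, β, hαβ⟩ := affine_of_no_PP hp0 (hq'q.trans hq1) hpq' hPP (hQgen u (hKQ huK))
      have e1 := hαβ p ⟨le_rfl, hpq'.le⟩
      have e2 := hαβ q' ⟨hpq'.le, le_rfl⟩
      rw [hKp u huK] at e1
      rw [hKq u huK] at e2
      have e3 : (α - 1) * (q' - p) = 0 := by linarith
      have e4 : α = 1 := by
        rcases mul_eq_zero.1 e3 with h | h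
        · linarith
        · exact absurd h (by linarith)
      rw [e4] at e1
      have e5 : β = 0 := by linarith
      have hx1 : p < p + min ε (q' - p) := by
        have : 0 < min ε (q' - p) := lt_min hε (by linarith)
        linarith
      refine hlin.not_fixed (two_zpow_ne_one hk) hx1 (by linarith [min_le_left ε (q' - p)]) ?_
      rw [hαβ _ ⟨hx1.le, by linarith [min_le_right ε (q' - p)]⟩, e4, e5]
      ring
  obtain ⟨m, hm1, hm2⟩ := exists_power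
  -- supports of the source elements
  have sA : ∀ x : ℝ, 3 / 4 ≤ x → (bA : ℝ ≃o ℝ) x = x := fun x hx => bumpFun_of_ge hx
  have sB : ∀ x : ℝ, x ≤ 1 / 4 → (bB : ℝ ≃o ℝ) x = x := fun x hx => bumpFun_of_le hx
  have sC : ∀ x : ℝ, x ≤ 1 / 8 → (bC : ℝ ≃o ℝ) x = x := fun x hx => bumpFun_of_le hx
  have sC' : ∀ x : ℝ, 1 / 2 ≤ x → (bC : ℝ ≃o ℝ) x = x := fun x hx => bumpFun_of_ge hx
  have sD : ∀ x : ℝ, x ≤ 1 / 4 → (bD : ℝ ≃o ℝ) x = x := fun x hx => bumpFun_of_le hx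
  have sD' : ∀ x : ℝ, 3 / 4 ≤ x → (bD : ℝ ≃o ℝ) x = x := fun x hx => bumpFun_of_ge hx
  have hcommute : ∀ {f g : thompsonF}, Commute (f : ℝ ≃o ℝ) (g : ℝ ≃o ℝ) →
      Commute (ψ f) (ψ g) := by
    intro f g h
    have : Commute f g := by
      apply Subtype.ext
      exact h.eq
    exact this.map ψ
  -- case A
  have caseA : ∀ (w : thompsonF) (k : ℤ) (ε : ℝ), w ∈ Del (Ici (3 / 4)) → 0 < ε → k ≠ 0 →
      Lin (ψ w) p (2 ^ k) ε → ∃ e : CoreSemigroup D, e * e = e := by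
    intro w k ε hw hε hk hlin
    have mA : bA ∈ Del (Ici (3 / 4)) := ⟨bA_mem, fun x hx => sA x hx⟩
    have mC : bC ∈ Del (Ici (3 / 4)) := ⟨bC_mem, fun x hx => sC' x (by
      have : (3 : ℝ) / 4 ≤ x := hx
      linarith)⟩
    have mD : bD ∈ Del (Ici (3 / 4)) := ⟨bD_mem, fun x hx => sD' x hx⟩
    refine hfinish (ψ w) k ε hε hk hlin (imbalance (T := ψ tt) (K₀ := (Del (Ici (3 / 4))).map ψ)
      (β₁ := ψ bC) (β₂ := ψ bD) (z := z) hQF ?_ (hψQ _ tt_mem) ?_ ?_ m ?_ (hF _) (hF _) hz hp hq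
      hpz hzq hno ⟨w, hw, rfl⟩ hε (two_zpow_ne_one hk) hlin)
    · exact Subgroup.map_mono fun g hg => hg.1
    · rintro _ ⟨g, ⟨hg, hg'⟩, rfl⟩
      refine ⟨tt⁻¹ * g * tt, ⟨Gam.mul_mem (Gam.mul_mem (Gam.inv_mem tt_mem) hg) tt_mem,
        fun x hx => ?_⟩, by simp⟩
      have hx' : (3 : ℝ) / 4 ≤ x := hx
      rw [Subgroup.coe_mul, Subgroup.coe_mul, Subgroup.coe_inv, mulA, mulA,
        hg' _ (show (tt : ℝ ≃o ℝ) x ∈ Ici (3 / 4) from hx'.trans (le_tt x)), invA]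
    · intro x hx hT
      have hxA := hx _ ⟨bA, mA, rfl⟩
      refine hQfix x hxA ?_ (hx _ ⟨bC, mC, rfl⟩) (hx _ ⟨bD, mD, rfl⟩)
      have : ψ tt x = ψ bA (ψ bB x) := by
        rw [tt, map_mul, mulA]
      rw [this] at hT
      apply (ψ bA).injective
      rw [hT, hxA]
    · rintro _ ⟨g, ⟨hg, hg'⟩, rfl⟩
      have e : (ψ tt ^ m)⁻¹ * ψ g * ψ tt ^ m = ψ ((tt ^ m)⁻¹ * g * tt ^ m) := by simp
      have hs : ∀ x : ℝ, 1 / 8 ≤ x → (((tt ^ m)⁻¹ * g * tt ^ m : thompsonF) : ℝ ≃o ℝ) x = x := by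
        intro x hx
        have h1 : (3 : ℝ) / 4 ≤ ((tt : ℝ ≃o ℝ) ^ m) x :=
          hm1.trans (((tt : ℝ ≃o ℝ) ^ m).monotone hx)
        rw [Subgroup.coe_mul, Subgroup.coe_mul, Subgroup.coe_inv, Subgroup.coe_pow, mulA, mulA,
          hg' _ h1, invA]
      rw [e]
      exact ⟨hcommute (commute_of_supports hs sC),
        hcommute (commute_of_supports hs fun x hx => sD x (by linarith))⟩
  -- case B
  have caseB : ∀ (w : thompsonF) (k : ℤ) (ε : ℝ), w ∈ Del (Iic (1 / 8)) → 0 < ε → k ≠ 0 →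
      Lin (ψ w) p (2 ^ k) ε → ∃ e : CoreSemigroup D, e * e = e := by
    intro w k ε hw hε hk hlin
    have mB : bB ∈ Del (Iic (1 / 8)) := ⟨bB_mem, fun x hx => sB x (by
      have : x ≤ (1 : ℝ) / 8 := hx
      linarith)⟩
    have mC : bC ∈ Del (Iic (1 / 8)) := ⟨bC_mem, fun x hx => sC x hx⟩
    have mD : bD ∈ Del (Iic (1 / 8)) := ⟨bD_mem, fun x hx => sD x (by
      have : x ≤ (1 : ℝ) / 8 := hx
      linarith)⟩
    refine hfinish (ψ w) k ε hε hk hlin (imbalance (T := ψ tt⁻¹) (K₀ := (Del (Iic (1 / 8))).map ψ)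
      (β₁ := ψ bC) (β₂ := ψ bD) (z := z) hQF ?_ (hψQ _ (Gam.inv_mem tt_mem)) ?_ ?_ m ?_ (hF _) (hF _)
      hz hp hq hpz hzq hno ⟨w, hw, rfl⟩ hε (two_zpow_ne_one hk) hlin)
    · exact Subgroup.map_mono fun g hg => hg.1
    · rintro _ ⟨g, ⟨hg, hg'⟩, rfl⟩
      refine ⟨tt * g * tt⁻¹, ⟨Gam.mul_mem (Gam.mul_mem tt_mem hg) (Gam.inv_mem tt_mem),
        fun x hx => ?_⟩, by simp⟩
      have hx' : x ≤ (1 : ℝ) / 8 := hx
      rw [Subgroup.coe_mul, Subgroup.coe_mul, Subgroup.coe_inv, mulA, mulA,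
        hg' _ (show (tt : ℝ ≃o ℝ)⁻¹ x ∈ Iic (1 / 8) from (ttinv_le x).trans hx'), invA']
    · intro x hx hT
      have hxB := hx _ ⟨bB, mB, rfl⟩
      refine hQfix x ?_ hxB (hx _ ⟨bC, mC, rfl⟩) (hx _ ⟨bD, mD, rfl⟩)
      rw [map_inv] at hT
      have hT' := inv_fix hT
      rw [inv_inv, tt, map_mul, mulA, hxB] at hT'
      exact hT'
    · rintro _ ⟨g, ⟨hg, hg'⟩, rfl⟩
      have e : (ψ tt⁻¹ ^ m)⁻¹ * ψ g * ψ tt⁻¹ ^ m = ψ (tt ^ m * g * (tt⁻¹) ^ m) := by simp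
      have hs : ∀ x : ℝ, x ≤ 3 / 4 → ((tt ^ m * g * (tt⁻¹) ^ m : thompsonF) : ℝ ≃o ℝ) x = x := by
        intro x hx
        have h1 : (((tt : ℝ ≃o ℝ)⁻¹) ^ m) x ≤ 1 / 8 :=
          ((((tt : ℝ ≃o ℝ)⁻¹) ^ m).monotone hx).trans hm2
        rw [Subgroup.coe_mul, Subgroup.coe_mul, Subgroup.coe_pow, Subgroup.coe_pow,
          Subgroup.coe_inv, mulA, mulA, hg' _ h1, inv_pow, invA']
      rw [e]
      exact ⟨(hcommute (commute_of_supports (fun x hx => sC' x (by linarith)) hs)).symm,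
        (hcommute (commute_of_supports sD' hs)).symm⟩
  rcases hsome with h | h | h | h
  · exact caseA bA kA δA ⟨bA_mem, fun x hx => sA x hx⟩ hδA h hlA
  · exact caseB bB kB δB ⟨bB_mem, fun x hx => sB x (by
      have : x ≤ (1 : ℝ) / 8 := hx
      linarith)⟩ hδB h hlB
  · exact caseB bC kC δC ⟨bC_mem, fun x hx => sC x hx⟩ hδC h hlC
  · exact caseA bD kD δD ⟨bD_mem, fun x hx => sD' x hx⟩ hδD h hlD

end Pool.Agent.W_MP_80b09e_al
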